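import Pool.Agent.TH710.DY.Fib

/-!
Finite unions of arithmetic progressions; return sets of skew products.
-/

set_option autoImplicit false

open FF MvPolynomial Pool.Agent.W603.LV Pool.Agent.W603.CY

namespace Pool.Agent.TH710.DY

/-- a finite union of arithmetic progressions (of length one or infinite) -/
def IsAP (S : Set ℕ) : Prop :=
  ∃ T : Finset (ℕ × ℕ), S = {m | ∃ t ∈ T, ∃ j : ℕ, m = t.1 + t.2 * j}

theorem IsAP.union {S S' : Set ℕ} (h : IsAP S) (h' : IsAP S') : IsAP (S ∪ S') := by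
  classical
  obtain ⟨T, rfl⟩ := h
  obtain ⟨T', rfl⟩ := h'
  refine ⟨T ∪ T', ?_⟩
  ext m
  simp only [Set.mem_union, Set.mem_ofPred_eq, Finset.mem_union]
  constructor
  · rintro (⟨t, ht, h⟩ | ⟨t, ht, h⟩)
    · exact ⟨t, Or.inl ht, h⟩
    · exact ⟨t, Or.inr ht, h⟩
  · rintro ⟨t, ht | ht, h⟩
    · exact Or.inl ⟨t, ht, h⟩
    · exact Or.inr ⟨t, ht, h⟩

theorem IsAP.finite {S : Set ℕ} (h : S.Finite) : IsAP S := by
  classical
  refine ⟨h.toFinset.image fun m => (m, 0), ?_⟩
  ext m
  simp only [Set.mem_ofPred_eq, Finset.mem_image, Set.Finite.mem_toFinset]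
  constructor
  · intro hm
    exact ⟨(m, 0), ⟨m, hm, rfl⟩, 0, by simp⟩
  · rintro ⟨t, ⟨q, hq, rfl⟩, j, hj⟩
    simp only [zero_mul, add_zero] at hj
    rwa [hj]

theorem IsAP.single (a b m0 : ℕ) : IsAP {m | m0 ≤ m ∧ ∃ j : ℕ, m = a + b * j} := by
  by_cases hb : b = 0
  · apply IsAP.finite
    refine (Set.finite_singleton a).subset ?_
    rintro m ⟨-, j, hj⟩
    rw [hb, zero_mul, add_zero] at hj
    exact hj
  · refine ⟨{(a + b * m0, b)} ∪ (Finset.range m0).image (fun j => (a + b * j, 0)) |>.filter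
      fun t => m0 ≤ t.1, ?_⟩
    have hb1 : 1 ≤ b := Nat.one_le_iff_ne_zero.2 hb
    ext m
    simp only [Set.mem_ofPred_eq, Finset.mem_filter, Finset.mem_union, Finset.mem_singleton,
      Finset.mem_image, Finset.mem_range]
    constructor
    · rintro ⟨h1, j, rfl⟩
      by_cases hj : j < m0
      · exact ⟨(a + b * j, 0), ⟨Or.inr ⟨j, hj, rfl⟩, h1⟩, 0, by simp⟩
      · refine ⟨(a + b * m0, b), ⟨Or.inl rfl, ?_⟩, j - m0, ?_⟩
        · have : m0 ≤ b * m0 := Nat.le_mul_of_pos_left _ hb1
          simp only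
          omega
        · simp only
          rw [add_assoc, ← mul_add, Nat.add_sub_of_le (not_lt.1 hj)]
    · rintro ⟨t, ⟨rfl | ⟨j, hj, rfl⟩, h2⟩, q, rfl⟩
      · simp only at h2 ⊢
        refine ⟨by omega, m0 + q, by ring⟩
      · simp only at h2 ⊢
        exact ⟨by omega, j, by simp⟩

/-- Only late terms matter. -/
theorem IsAP.late {S S' : Set ℕ} (h : IsAP S) (m0 : ℕ) (h' : ∀ m, m0 ≤ m → (m ∈ S ↔ m ∈ S')) :
    IsAP S' := by
  classical
  obtain ⟨T, rfl⟩ := h
  have h1 : S' = (S' ∩ {m | m < m0}) ∪ ⋃ t ∈ T, {m | m0 ≤ m ∧ ∃ j : ℕ, m = t.1 + t.2 * j} := by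
    ext m
    simp only [Set.mem_union, Set.mem_inter_iff, Set.mem_iUnion, Set.mem_ofPred_eq, exists_prop]
    constructor
    · intro hm
      by_cases hlt : m < m0
      · exact Or.inl ⟨hm, hlt⟩
      · obtain ⟨t, ht, hj⟩ := (h' m (not_lt.1 hlt)).2 hm
        exact Or.inr ⟨t, ht, not_lt.1 hlt, hj⟩
    · rintro (⟨hm, -⟩ | ⟨t, ht, hle, hj⟩)
      · exact hm
      · exact (h' m hle).1 ⟨t, ht, hj⟩
  rw [h1]
  refine IsAP.union (IsAP.finite ((Set.finite_lt_nat m0).subset Set.inter_subset_right)) ?_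
  clear h1 h'
  induction T using Finset.induction_on with
  | empty =>
    have h2 : (⋃ t ∈ (∅ : Finset (ℕ × ℕ)), {m | m0 ≤ m ∧ ∃ j : ℕ, m = t.1 + t.2 * j}) =
        (∅ : Set ℕ) := by simp
    rw [h2]
    exact IsAP.finite Set.finite_empty
  | insert t T ht ih =>
    rw [Finset.set_biUnion_insert]
    exact (IsAP.single _ _ _).union ih

/-- the return set of a preperiodic sequence -/
theorem IsAP.preper {X : Type} (f : X → X) (x : X) {a b : ℕ} (hab : a < b)
    (h : f^[a] x = f^[b] x) (P : X → Prop) : IsAP {m | P (f^[m] x)} := by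
  classical
  have hp : ∀ m, a ≤ m → ∀ j, f^[m + (b - a) * j] x = f^[m] x := by
    intro m hm j
    induction j with
    | zero => simp
    | succ j ih =>
      have h1 : m + (b - a) * (j + 1) = (m - a) + ((b - a) * j + b) := by
        rw [mul_add, mul_one]
        omega
      have h2 : m + (b - a) * j = (m - a) + ((b - a) * j + a) := by omega
      rw [← ih, h1, h2, Function.iterate_add_apply, Function.iterate_add_apply f _ b,
        ← h, ← Function.iterate_add_apply, ← Function.iterate_add_apply]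
      congr 1
      exact add_assoc _ _ _
  refine ⟨((Finset.range b).filter fun m => P (f^[m] x)).image
    (fun m => (m, if m < a then 0 else b - a)), ?_⟩
  ext m
  simp only [Set.mem_ofPred_eq, Finset.mem_image, Finset.mem_filter, Finset.mem_range]
  constructor
  · intro hm
    by_cases hma : m < a
    · exact ⟨(m, 0), ⟨m, ⟨by omega, hm⟩, by rw [if_pos hma]⟩, 0, by simp⟩
    · have hma' : a ≤ m := not_lt.1 hma
      have h1 : m = (a + (m - a) % (b - a)) + (b - a) * ((m - a) / (b - a)) := by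
        have := Nat.mod_add_div (m - a) (b - a)
        omega
      have h2 : (m - a) % (b - a) < b - a := Nat.mod_lt _ (by omega)
      refine ⟨(a + (m - a) % (b - a), b - a), ⟨a + (m - a) % (b - a), ⟨by omega, ?_⟩, ?_⟩,
        (m - a) / (b - a), h1⟩
      · rw [h1, hp _ (Nat.le_add_right _ _)] at hm
        exact hm
      · rw [if_neg (by omega)]
  · rintro ⟨t, ⟨q, ⟨hqb, hq⟩, rfl⟩, j, rfl⟩
    simp only
    split_ifs with hqa
    · simpa using hq
    · rw [hp q (not_lt.1 hqa)]
      exact hq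

/-- **The base of dimension at most one.** -/
theorem base_one {r : ℕ} (hr : r ≤ 1) (f : (Fin r → ℂ) → Fin r → ℂ) (y : Fin r → ℂ)
    (W : Set (MvPolynomial (Fin r) ℂ)) : IsAP {m | ∀ p ∈ W, eval (f^[m] y) p = 0} := by
  classical
  by_cases hinj : ∃ a b, a < b ∧ f^[a] y = f^[b] y
  · obtain ⟨a, b, hab, h⟩ := hinj
    exact IsAP.preper f y hab h fun z => ∀ p ∈ W, eval z p = 0
  · push Not at hinj
    by_cases hW : ∀ p ∈ W, p = 0
    · have h1 : {m : ℕ | ∀ p ∈ W, eval (f^[m] y) p = 0} = Set.univ := by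
        ext m
        simp only [Set.mem_ofPred_eq, Set.mem_univ, iff_true]
        intro p hp
        rw [hW p hp, map_zero]
      rw [h1]
      refine ⟨{(0, 1)}, ?_⟩
      ext m
      simp
    · push Not at hW
      obtain ⟨p, hp, hp0⟩ := hW
      apply IsAP.finite
      have hfin : {z : Fin r → ℂ | eval z p = 0}.Finite := by
        interval_cases r
        · exact Set.toFinite _
        · set q : Polynomial ℂ := aeval (fun _ : Fin 1 => (Polynomial.X : Polynomial ℂ)) p with hq
          have h1 : ∀ z : Fin 1 → ℂ, Polynomial.eval (z 0) q = eval z p := by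
            intro z
            rw [hq, aeval_def, ← Polynomial.coe_evalRingHom, eval₂_comp_left
              (Polynomial.evalRingHom (z 0)), eval_eq', eval₂_eq']
            refine Finset.sum_congr rfl fun β _ => ?_
            simp
          have hq0 : q ≠ 0 := by
            intro h0
            apply hp0
            apply MvPolynomial.funext
            intro z
            rw [← h1, h0, Polynomial.eval_zero, map_zero]
          have h2 : {z : Fin 1 → ℂ | eval z p = 0} ⊆
              (fun c : ℂ => fun _ : Fin 1 => c) '' (q.roots.toFinset : Set ℂ) := by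
            intro z hz
            refine ⟨z 0, ?_, ?_⟩
            · rw [Finset.mem_coe, Multiset.mem_toFinset, Polynomial.mem_roots hq0,
                Polynomial.IsRoot.def, h1]
              exact hz
            · funext i
              rw [Subsingleton.elim i 0]
          exact ((Finset.finite_toSet _).image _).subset h2
      have hinj' : Function.Injective fun m => f^[m] y := by
        intro a b hab
        by_contra hne
        rcases lt_or_gt_of_ne hne with h | h
        · exact hinj a b h hab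
        · exact hinj b a h hab.symm
      exact (hfin.preimage hinj'.injOn).subset fun m hm => hm p hp

variable {k K : Type} [Field k] [Field K] [Algebra k K] {r N : ℕ}
  [CharZero k] [IsFF k K] [IsAlgClosed k]

/-- **The return set**, for all equations at once. -/
theorem return_base {δ s e : ℕ} (hN : 0 < N) (hs0 : 0 < s)
    (hs : (mons N δ).card ≤ s)
    (he : 0 < e) {d : ℕ} (hd : (e + 1) * qc s δ ≤ d)
    (A : ℕ → Matrix (Fin N) (Fin N) K)
    (hA : ∀ m, (A m).det ≠ 0) {a : ℤ} (ha0 : 0 ≤ a) (ha : ∀ m, msum k (A m) ≤ a * e ^ m)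
    (x : ℕ → Fin N → K) (hx : ∀ m, x (m + 1) = step d (A m) (x m))
    (hx1 : ∀ m, FarM k δ ((max (canDeg k K) 0 + a) * e ^ m + ((e + 1) ^ m - 1)) (x m))
    (y : ℕ → Fin r → K) {b : ℤ} (hb0 : 0 ≤ b) (hb : ∀ m, mapDeg k (y m) ≤ b * e ^ m)
    (σ : K →+* ℂ) (V : Set (MvPolynomial (Fin N) (MvPolynomial (Fin r) ℂ)))
    (hV : ∀ F ∈ V, ∃ δ' ≤ δ, F.IsHomogeneous δ') :
    ∃ m0 : ℕ, ∀ m, m0 ≤ m →
      ((∀ F ∈ V, eval (fun i => σ (x m i)) (map (eval fun i => σ (y m i)) F) = 0) ↔
      ∀ F ∈ V, ∀ κ, eval (fun i => σ (y m i)) (coeff κ F) = 0) := by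
  classical
  obtain ⟨V0, hV0, hspan⟩ := (Submodule.fg_span_iff_fg_span_finset_subset V).1
    (IsNoetherian.noetherian (Ideal.span V))
  have h1 : ∀ F : V0, ∃ m0 : ℕ, ∀ m, m0 ≤ m →
      eval (fun i => σ (x m i)) (map (eval fun i => σ (y m i)) F.1) = 0 →
      map (eval fun i => σ (y m i)) F.1 = 0 := by
    intro F
    obtain ⟨δ', hδ', hF⟩ := hV F.1 (hV0 F.2)
    exact fiber_zero (k := k) hN hδ' hs0 hs he hd A hA ha0 ha x hx hx1 y hb0 hb σ hF
  choose m0 hm0 using h1
  refine ⟨Finset.univ.sup m0, fun m hm => ⟨fun h => ?_, fun h F hF => ?_⟩⟩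
  · have h2 : Ideal.span V ≤ RingHom.ker (map (eval fun i => σ (y m i)) :
        MvPolynomial (Fin N) (MvPolynomial (Fin r) ℂ) →+* MvPolynomial (Fin N) ℂ) := by
      rw [show Ideal.span V = Ideal.span (V0 : Set _) from hspan, Ideal.span_le]
      intro F hF
      exact RingHom.mem_ker.2 (hm0 ⟨F, hF⟩ m ((Finset.le_sup (Finset.mem_univ _)).trans hm)
        (h F (hV0 hF)))
    intro F hF κ
    have h3 := RingHom.mem_ker.1 (h2 (Ideal.subset_span hF))
    have h4 := congrArg (coeff κ) h3
    rwa [coeff_map, coeff_zero] at h4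
  · have h3 : map (eval fun i => σ (y m i)) F = 0 := by
      ext κ
      rw [coeff_map, coeff_zero]
      exact h F hF κ
    rw [h3, map_zero]

end Pool.Agent.TH710.DY
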