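import Pool.Agent.TH710.DY.Mon

/-!
Heights of the points of the orbits of polynomial maps over a function field.
-/

set_option autoImplicit false

open FF MvPolynomial Pool.Agent.W603.LV Pool.Agent.W603.CY

namespace Pool.Agent.TH710.DY

variable {k K : Type} [Field k] [Field K] [Algebra k K] {r : ℕ}

variable (k) in
/-- the sum of the heights of the coefficients -/
noncomputable def csum {τ : Type} (p : MvPolynomial τ K) : ℤ := ∑ β ∈ p.support, hgt k (coeff β p)

theorem csum_nonneg {τ : Type} (p : MvPolynomial τ K) : 0 ≤ csum k p :=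
  Finset.sum_nonneg fun _ _ => hgt_nonneg _

/-- the local height -/
noncomputable def lh (P : Place k K) (y : Fin r → K) : ℕ :=
  Finset.univ.sup fun j => (-P.ord (y j)).toNat

theorem lh_ge (P : Place k K) (y : Fin r → K) (j : Fin r) : Ge P (-(lh P y : ℤ)) (y j) := by
  right
  have h1 : (-P.ord (y j)).toNat ≤ lh P y :=
    Finset.le_sup (f := fun j => (-P.ord (y j)).toNat) (Finset.mem_univ j)
  omega

theorem lh_poly (P : Place k K) (y : Fin r → K) (p : MvPolynomial (Fin r) K) {e : ℕ}
    (he : p.totalDegree ≤ e) : (-P.ord (aeval y p)).toNat ≤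
      e * lh P y + ∑ β ∈ p.support, (-P.ord (coeff β p)).toNat := by
  have h1 : Ge P (-((e * lh P y + ∑ β ∈ p.support, (-P.ord (coeff β p)).toNat : ℕ) : ℤ))
      (aeval y p) := by
    rw [aeval_def, eval₂_eq']
    refine Ge.sum _ _ fun β hβ => ?_
    have h2 : Ge P (-((∑ β ∈ p.support, (-P.ord (coeff β p)).toNat : ℕ) : ℤ)) (coeff β p) := by
      right
      have h3 : (-P.ord (coeff β p)).toNat ≤ ∑ β ∈ p.support, (-P.ord (coeff β p)).toNat :=
        Finset.single_le_sum (f := fun β => (-P.ord (coeff β p)).toNat)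
          (fun _ _ => Nat.zero_le _) hβ
      omega
    have h4 := h2.mul (Ge.prod Finset.univ (fun a => y a ^ β a)
      (fun a => β a * (-(lh P y : ℤ))) (fun a _ => (lh_ge P y a).pow (β a)))
    refine h4.mono ?_
    have h5 : ∑ a, β a ≤ e := by
      refine le_trans ?_ ((le_totalDegree hβ).trans he)
      rw [Finsupp.sum_fintype _ _ (by simp)]
    have h6 : ∑ a, (β a : ℤ) * (-(lh P y : ℤ)) = -(((∑ a, β a) * lh P y : ℕ) : ℤ) := by
      push_cast
      rw [Finset.sum_mul, ← Finset.sum_neg_distrib]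
      exact Finset.sum_congr rfl fun a _ => by ring
    have h7 : (∑ a, β a) * lh P y ≤ e * lh P y := Nat.mul_le_mul_right _ h5
    rw [h6]
    have h8 : (((∑ a, β a) * lh P y : ℕ) : ℤ) ≤ ((e * lh P y : ℕ) : ℤ) := by exact_mod_cast h7
    have h9 : ((e * lh P y + ∑ β ∈ p.support, (-P.ord (coeff β p)).toNat : ℕ) : ℤ) =
        ((e * lh P y : ℕ) : ℤ) + ((∑ β ∈ p.support, (-P.ord (coeff β p)).toNat : ℕ) : ℤ) := by
      push_cast
      rfl
    rw [h9]
    linarith
  rcases h1 with h1 | h1
  · rw [h1, P.ord_zero]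
    exact Nat.zero_le _
  · omega

variable [CharZero k] [IsFF k K]

omit [CharZero k] in
theorem mapDeg_finset (y : Fin r → K) (T : Finset (Place k K))
    (hT : ∀ j, ∀ P : Place k K, P.ord (y j) ≠ 0 → P ∈ T) :
    mapDeg k y = ∑ P ∈ T, (lh P y : ℤ) := by
  unfold mapDeg
  rw [finsum_eq_sum_of_support_subset (s := T)]
  · rfl
  · intro P hP
    by_contra hcon
    apply hP
    have h2 : ∀ j, P.ord (y j) = 0 := fun j => by
      by_contra h; exact hcon (hT j P h)
    simp [h2]

theorem mapDeg_nonneg (y : Fin r → K) : 0 ≤ mapDeg k y :=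
  finsum_nonneg fun _ => by positivity

theorem hgt_poly (y : Fin r → K) (p : MvPolynomial (Fin r) K) {e : ℕ}
    (he : p.totalDegree ≤ e) : hgt k (aeval y p) ≤ e * mapDeg k y + csum k p := by
  classical
  obtain ⟨T1, hT1⟩ := exists_supp (k := k) Finset.univ y
  obtain ⟨T2, hT2⟩ := exists_supp (k := k) p.support fun β => coeff β p
  obtain ⟨T3, hT3⟩ := exists_supp (k := k) (Finset.univ : Finset (Fin 1)) ![aeval y p]
  set T := T1 ∪ T2 ∪ T3 with hT
  rw [hgt_finset _ T fun P hP => by
      have := hT3 0 (Finset.mem_univ _) P hP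
      simp [hT, this],
    mapDeg_finset y T fun j P hP => by
      have := hT1 j (Finset.mem_univ _) P hP
      simp [hT, this]]
  unfold csum
  rw [Finset.sum_congr rfl fun β hβ => hgt_finset (coeff β p) T fun P hP => by
      have := hT2 β hβ P hP
      simp [hT, this], Finset.sum_comm, Finset.mul_sum, ← Finset.sum_add_distrib]
  refine Finset.sum_le_sum fun P _ => ?_
  have h1 := lh_poly P y p he
  have h2 : ∀ z : ℤ, max (-z) 0 = ((-z).toNat : ℤ) := fun z => by omega
  rw [h2, Finset.sum_congr rfl fun β _ => h2 _]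
  exact_mod_cast h1

theorem mapDeg_poly {q : ℕ} (y : Fin r → K) (g : Fin q → MvPolynomial (Fin r) K) {e : ℕ}
    (he : ∀ i, (g i).totalDegree ≤ e) :
    mapDeg k (fun i => aeval y (g i)) ≤ e * mapDeg k y + ∑ i, csum k (g i) := by
  classical
  obtain ⟨T1, hT1⟩ := exists_supp (k := k) Finset.univ y
  choose T2 hT2 using fun i => exists_supp (k := k) (g i).support fun β => coeff β (g i)
  obtain ⟨T3, hT3⟩ := exists_supp (k := k) Finset.univ fun i => aeval y (g i)
  set T := T1 ∪ Finset.univ.biUnion T2 ∪ T3 with hT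
  rw [mapDeg_finset _ T fun j P hP => by
      have := hT3 j (Finset.mem_univ _) P hP
      simp [hT, this],
    mapDeg_finset y T fun j P hP => by
      have := hT1 j (Finset.mem_univ _) P hP
      simp [hT, this]]
  unfold csum
  have h0 : ∑ i, ∑ β ∈ (g i).support, hgt k (coeff β (g i)) =
      ∑ P ∈ T, ∑ i, ∑ β ∈ (g i).support, max (-P.ord (coeff β (g i))) 0 := by
    rw [Finset.sum_comm]
    refine Finset.sum_congr rfl fun i _ => ?_
    rw [Finset.sum_comm]
    refine Finset.sum_congr rfl fun β hβ => hgt_finset (coeff β (g i)) T fun P hP => ?_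
    have h1 := hT2 i β hβ P hP
    rw [hT, Finset.mem_union, Finset.mem_union, Finset.mem_biUnion]
    exact Or.inl (Or.inr ⟨i, Finset.mem_univ i, h1⟩)
  rw [h0, Finset.mul_sum, ← Finset.sum_add_distrib]
  refine Finset.sum_le_sum fun P _ => ?_
  have h1 : lh P (fun i => aeval y (g i)) ≤
      e * lh P y + ∑ i, ∑ β ∈ (g i).support, (-P.ord (coeff β (g i))).toNat := by
    refine Finset.sup_le fun i _ => ?_
    refine (lh_poly P y (g i) (he i)).trans ?_
    have h2 : ∑ β ∈ (g i).support, (-P.ord (coeff β (g i))).toNat ≤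
        ∑ i, ∑ β ∈ (g i).support, (-P.ord (coeff β (g i))).toNat :=
      Finset.single_le_sum (f := fun i => ∑ β ∈ (g i).support, (-P.ord (coeff β (g i))).toNat)
        (fun _ _ => Nat.zero_le _) (Finset.mem_univ i)
    omega
  have h2 : ∀ z : ℤ, max (-z) 0 = ((-z).toNat : ℤ) := fun z => by omega
  simp only [h2]
  exact_mod_cast h1

/-- the orbit of a point of the base -/
noncomputable def borb (g : Fin r → MvPolynomial (Fin r) K) (y : Fin r → K) (m : ℕ) : Fin r → K :=
  (fun (y : Fin r → K) i => aeval y (g i))^[m] y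

theorem growth {g : Fin r → MvPolynomial (Fin r) K} {e : ℕ} (he2 : 2 ≤ e)
    (he : ∀ i, (g i).totalDegree ≤ e) (y : Fin r → K) (m : ℕ) :
    mapDeg k (borb g y m) ≤ (mapDeg k y + ∑ i, csum k (g i)) * e ^ m := by
  have hc : 0 ≤ ∑ i, csum k (g i) := Finset.sum_nonneg fun _ _ => csum_nonneg _
  have he2' : (2 : ℤ) ≤ e := by exact_mod_cast he2
  have key : mapDeg k (borb g y m) + ∑ i, csum k (g i) ≤
      (mapDeg k y + ∑ i, csum k (g i)) * e ^ m := by
    induction m with
    | zero => simp [borb]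
    | succ m ih =>
      have h1 : borb g y (m + 1) = fun i => aeval (borb g y m) (g i) := by
        unfold borb
        rw [Function.iterate_succ_apply']
      have h2 := mapDeg_poly (k := k) (borb g y m) g he
      rw [← h1] at h2
      have h3 := mul_le_mul_of_nonneg_left ih (by linarith : (0 : ℤ) ≤ e)
      have h4 : (mapDeg k y + ∑ i, csum k (g i)) * (e : ℤ) ^ (m + 1) =
          e * ((mapDeg k y + ∑ i, csum k (g i)) * e ^ m) := by ring
      rw [h4]
      nlinarith
  linarith

theorem mapDeg_const [IsAlgClosed k] (y : Fin r → K) (h : ∀ i, ∃ c : k, y i = algebraMap k K c) :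
    mapDeg k y = 0 := by
  refine le_antisymm ((mapDeg_le y).trans (le_of_eq ?_)) (mapDeg_nonneg y)
  refine Finset.sum_eq_zero fun i _ => ?_
  obtain ⟨c, hc⟩ := h i
  rw [hc]
  by_cases h0 : c = 0
  · rw [h0, map_zero, hgt_zero]
  · rw [hgt_finset (k := k) (algebraMap k K c) ∅ (fun P h => absurd (P.ord_const h0) h)]
    rfl

/-- the matrix of the values -/
noncomputable def evm {N : ℕ} (A : Matrix (Fin N) (Fin N) (MvPolynomial (Fin r) K))
    (y : Fin r → K) : Matrix (Fin N) (Fin N) K := A.map fun p => aeval y p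

theorem msum_evm {N : ℕ} (A : Matrix (Fin N) (Fin N) (MvPolynomial (Fin r) K)) {e : ℕ}
    (he : ∀ i j, (A i j).totalDegree ≤ e) (y : Fin r → K) :
    msum k (evm A y) ≤ (N ^ 2 * e : ℕ) * mapDeg k y + ∑ i, ∑ j, csum k (A i j) := by
  unfold msum evm
  have h1 : ∀ i j, hgt k ((A.map fun p => aeval y p) i j) ≤ e * mapDeg k y + csum k (A i j) :=
    fun i j => hgt_poly y (A i j) (he i j)
  refine (Finset.sum_le_sum fun i _ => Finset.sum_le_sum fun j _ => h1 i j).trans (le_of_eq ?_)
  simp only [Finset.sum_add_distrib, Finset.sum_const, Finset.card_univ, Fintype.card_fin,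
    nsmul_eq_mul]
  push_cast
  ring

end Pool.Agent.TH710.DY
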