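import Pool.Agent.TH710.DY.Orbit

/-!
Vanishing sums of few high powers: partial sums over sets of terms that are far from the others;
points whose coordinates are proportional over the constants or far from being proportional.
-/

set_option autoImplicit false

open FF Pool.Agent.W603.LV Pool.Agent.W603.CY

namespace Pool.Agent.TH710.DY

variable {k K : Type} [Field k] [Field K] [Algebra k K]

theorem sum_classes {J M : Type} [Fintype J] [AddCommMonoid M] (R : J → J → Prop)
    [∀ i j, Decidable (R i j)] (hR : Equivalence R) (f : J → M)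
    (h : ∀ j0, ∑ j ∈ Finset.univ.filter (fun j => R j0 j), f j = 0) : ∑ j, f j = 0 := by
  classical
  let s : Setoid J := ⟨R, hR⟩
  rw [← Finset.sum_fiberwise Finset.univ (fun j => (Quotient.mk s j : Quotient s))]
  refine Finset.sum_eq_zero fun c _ => ?_
  obtain ⟨j0, rfl⟩ := Quotient.exists_rep c
  rw [← h j0]
  refine Finset.sum_congr ?_ fun _ _ => rfl
  ext j
  simp only [Finset.mem_filter, Finset.mem_univ, true_and]
  exact ⟨fun h => hR.symm (Quotient.exact h), fun h => Quotient.sound (hR.symm h)⟩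

variable [CharZero k] [IsFF k K] [IsAlgClosed k]

/-- **A set of terms that is far from the others.** -/
theorem cut {J : Type} [Fintype J] (S : Finset (Place k K)) {N s : ℕ}
    (hs : Fintype.card J ≤ s) (hN0 : 0 < N) (hN : 2 * (s - 1) ^ 2 ≤ N) (g : J → K)
    (hg0 : ∀ j, g j ≠ 0) (hrel : ∑ j, g j = 0)
    (hdvd : ∀ P ∉ S, ∀ i j, (N : ℤ) ∣ P.ord (g i) - P.ord (g j)) (L : Finset J)
    (hL : ∑ j ∈ L, g j ≠ 0) :
    ∃ i ∈ L, ∃ j, j ∉ L ∧ hgt k (g i / g j) ≤ 2 * tri s * max (canDeg k K + S.card) 0 := by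
  classical
  by_contra hcon
  push Not at hcon
  set χ : ℤ := max (canDeg k K + S.card) 0 with hχ
  have hχ0 : 0 ≤ χ := le_max_right _ _
  obtain ⟨l, hl⟩ : ∃ l, l ∈ L := by
    by_contra h
    push Not at h
    apply hL
    rw [Finset.eq_empty_of_forall_notMem h, Finset.sum_empty]
  have key := class_sum (k := k) g (fun i j => (i ∈ L ↔ j ∈ L))
    ⟨fun i => Iff.rfl, fun h => h.symm, fun h1 h2 => h1.trans h2⟩ (by
      intro m e he c hc hrel' hlin i j
      have hm : m + 1 ≤ s := by
        have := Fintype.card_le_of_injective e he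
        simp only [Fintype.card_fin] at this
        omega
      have h0 : ∀ a b, e a ∈ L → e b ∈ L := by
        intro a b ha
        by_contra hb
        have h1 := height_ineq2 S hN0 (m := m)
          ((Nat.mul_le_mul_left 2 (Nat.pow_le_pow_left (by omega) 2)).trans hN)
          (fun i => c i • g (e i)) (fun i => smul_ne_zero (hc i) (hg0 _)) hrel' hlin (by
            intro P hP i j
            rw [ord_smul P (hc i), ord_smul P (hc j)]
            exact hdvd P hP _ _) a b
        have h2 : hgt k (g (e a) / g (e b)) = hgt k (c a • g (e a) / c b • g (e b)) := by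
          refine hgt_congr fun P => ?_
          rw [P.ord_div (hg0 _) (hg0 _), P.ord_div (smul_ne_zero (hc a) (hg0 _))
            (smul_ne_zero (hc b) (hg0 _)), ord_smul P (hc a), ord_smul P (hc b)]
        have h3 := hcon (e a) ha (e b) hb
        have h4 : (2 : ℤ) * tri m * (canDeg k K + S.card) ≤ 2 * tri s * χ := by
          have h5 : (0 : ℤ) ≤ 2 * tri m := mul_nonneg (by norm_num) (tri_nonneg m)
          exact (mul_le_mul_of_nonneg_left (le_max_left _ _) h5).trans
            (mul_le_mul_of_nonneg_right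
              (mul_le_mul_of_nonneg_left (tri_mono (by omega)) (by norm_num)) hχ0)
        rw [h2] at h3
        have h6 := h1.trans h4
        linarith
      exact ⟨h0 i j, h0 j i⟩)
    (Finset.univ.filter fun j => (fun _ : J => (1 : k)) j ≠ 0).card (fun _ => 1) le_rfl
    (by simpa using hrel) l
  simp only [one_smul, hl, true_iff] at key
  apply hL
  rw [← key]
  exact Finset.sum_congr (by ext j; simp) fun _ _ => rfl

/-- **Gates**: the part of a vanishing sum of few terms `c u ^ d` over a set of terms for which `u`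
is far from the others vanishes. -/
theorem cut_zero {J : Type} [Fintype J] {d s : ℕ} (hs : Fintype.card J ≤ s)
    (hd0 : 0 < d) (hd : 2 * (s - 1) ^ 2 ≤ d) (c u : J → K) (hrel : ∑ j, c j * u j ^ d = 0)
    (L : Finset J)
    (hl : ∀ i ∈ L, ∀ j, j ∉ L → u i ≠ 0 → u j ≠ 0 →
      gc s * (max (canDeg k K) 0 + ∑ j, hgt k (c j)) < d * hgt k (u i / u j)) :
    ∑ j ∈ L, c j * u j ^ d = 0 := by
  classical
  by_contra hL
  -- the nonzero terms
  have h1 : ∑ j : {j // c j * u j ^ d ≠ 0}, c j.1 * u j.1 ^ d = 0 := by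
    rw [← Finset.sum_subtype (Finset.univ.filter fun j => c j * u j ^ d ≠ 0) (by simp)
      (fun j => c j * u j ^ d), Finset.sum_filter_ne_zero]
    exact hrel
  obtain ⟨S, hS, hSc⟩ := Pool.Agent.W603.CY.card_supp (k := k) (K := K) c
  have hne : ∀ j, c j * u j ^ d ≠ 0 → c j ≠ 0 ∧ u j ≠ 0 := by
    intro j hj
    refine ⟨left_ne_zero_of_mul hj, fun h => ?_⟩
    apply hj
    rw [h, zero_pow hd0.ne', mul_zero]
  obtain ⟨i, hiL, j, hjL, hj⟩ := cut (k := k) (J := {j // c j * u j ^ d ≠ 0}) S (s := s) (N := d)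
    ((Fintype.card_subtype_le _).trans hs) hd0 hd (fun j => c j.1 * u j.1 ^ d) (fun j => j.2) h1
    (by
      intro P hP a b
      have key : ∀ a : {j // c j * u j ^ d ≠ 0}, P.ord (c a.1 * u a.1 ^ d) =
          d * P.ord (u a.1) := by
        intro a
        obtain ⟨h2, h3⟩ := hne a.1 a.2
        rw [P.ord_mul h2 (pow_ne_zero _ h3), hS P hP a.1, zero_add, P.ord_pow]
      rw [key, key, ← mul_sub]
      exact dvd_mul_right _ _) (L.subtype fun j => c j * u j ^ d ≠ 0) (by
      rw [Finset.sum_subtype_eq_sum_filter (f := fun j => c j * u j ^ d),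
        Finset.sum_filter_ne_zero]
      exact hL)
  rw [Finset.mem_subtype] at hiL hjL
  obtain ⟨hci, hui⟩ := hne i.1 i.2
  obtain ⟨hcj, huj⟩ := hne j.1 j.2
  have hij : j.1 ≠ i.1 := by
    intro h
    rw [h] at hjL
    exact hjL hiL
  have h2 := hl i.1 hiL j.1 hjL hui huj
  have h3 : hgt k ((u i.1 / u j.1) ^ d) = d * hgt k (u i.1 / u j.1) :=
    hgt_pow (div_ne_zero hui huj) d
  have h4 : (u i.1 / u j.1) ^ d =
      (c i.1 * u i.1 ^ d / (c j.1 * u j.1 ^ d)) * (c j.1 * (c i.1)⁻¹) := by
    rw [div_pow]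
    have := pow_ne_zero d huj
    field_simp
  have h5 := hgt_mul (k := k) (div_ne_zero i.2 j.2) (mul_ne_zero hcj (inv_ne_zero hci))
  have h6 := hgt_mul (k := k) hcj (inv_ne_zero hci)
  rw [hgt_inv] at h6
  rw [← h4, h3] at h5
  have h7 : hgt k (c j.1) + hgt k (c i.1) ≤ ∑ j, hgt k (c j) := by
    rw [← Finset.sum_pair (f := fun j => hgt k (c j)) hij]
    exact Finset.sum_le_sum_of_subset_of_nonneg (Finset.subset_univ _)
      fun i _ _ => hgt_nonneg _
  have h8 : max (canDeg k K + S.card) 0 ≤ max (canDeg k K) 0 + 2 * ∑ j, hgt k (c j) := by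
    have h9 : (0 : ℤ) ≤ ∑ j, hgt k (c j) := Finset.sum_nonneg fun j _ => hgt_nonneg _
    have h10 := le_max_left (canDeg k K) 0
    have h11 := le_max_right (canDeg k K) 0
    rw [← Finset.mul_sum] at hSc
    apply max_le <;> linarith
  have h9 := mul_le_mul_of_nonneg_left h8 (mul_nonneg (by norm_num) (tri_nonneg s) :
    (0 : ℤ) ≤ 2 * tri s)
  have h10 : (0 : ℤ) ≤ max (canDeg k K) 0 := le_max_right _ _
  have h11 := tri_nonneg s
  have h12 := mul_nonneg h11 h10
  unfold gc at h2
  nlinarith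

variable (k) in
/-- The ratios of the nonzero coordinates are constant or of height `> B`. -/
def Gap {N : ℕ} (B : ℤ) (x : Fin N → K) : Prop :=
  ∀ i j, x i ≠ 0 → x j ≠ 0 → (∃ c : k, x i = algebraMap k K c * x j) ∨ B < hgt k (x i / x j)

variable (k) in
/-- proportional over the constants -/
def Pr {N : ℕ} (x : Fin N → K) (i j : Fin N) : Prop :=
  ∃ c : k, c ≠ 0 ∧ x j = algebraMap k K c * x i

theorem Pr.equiv {N : ℕ} (x : Fin N → K) : Equivalence (Pr k x) := by
  refine ⟨fun i => ⟨1, one_ne_zero, by rw [map_one, one_mul]⟩, ?_, ?_⟩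
  · rintro i j ⟨c, hc, h⟩
    refine ⟨c⁻¹, inv_ne_zero hc, ?_⟩
    rw [h, ← mul_assoc, ← map_mul, inv_mul_cancel₀ hc, map_one, one_mul]
  · rintro i j l ⟨c, hc, h⟩ ⟨c', hc', h'⟩
    refine ⟨c' * c, mul_ne_zero hc' hc, ?_⟩
    rw [h', h, map_mul, mul_assoc]

/-- the coefficients of the classes -/
theorem class_coef {N d : ℕ} (hd0 : 0 < d) (hd : 2 * (N - 1) ^ 2 ≤ d) {B : ℤ} {y : Fin N → K}
    (hy : Gap k B y) (q : Fin N → K) (hq : ∑ j, q j * y j ^ d = 0)
    (hB : gc N * (max (canDeg k K) 0 + ∑ j, hgt k (q j)) < d * (B + 1)) [∀ i j, Decidable (Pr k y i j)]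
    (l : Fin N) : ∑ j ∈ Finset.univ.filter (fun j => Pr k y l j), q j * y j ^ d = 0 := by
  refine cut_zero (k := k) (s := N) (by rw [Fintype.card_fin]) hd0 hd q y hq _ ?_
  intro i hi j hj hi0 hj0
  rw [Finset.mem_filter] at hi hj
  have h1 : ¬ ∃ c : k, y i = algebraMap k K c * y j := by
    rintro ⟨c, hc⟩
    apply hj
    refine ⟨Finset.mem_univ _, (Pr.equiv y).trans hi.2 ?_⟩
    have hc0 : c ≠ 0 := by
      rintro rfl
      rw [map_zero, zero_mul] at hc
      exact hi0 hc
    exact (Pr.equiv y).symm ⟨c, hc0, hc⟩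
  have h2 := (hy i j hi0 hj0).resolve_left h1
  refine hB.trans_le ?_
  exact mul_le_mul_of_nonneg_left (by linarith) (by positivity)

/-- **Relations pass to compatible points.** -/
theorem compat_sum {N d : ℕ} (hd0 : 0 < d) (hd : 2 * (N - 1) ^ 2 ≤ d) {B : ℤ} {y : Fin N → K}
    (hy : Gap k B y) (q : Fin N → K) (hq : ∑ j, q j * y j ^ d = 0)
    (hB : gc N * (max (canDeg k K) 0 + ∑ j, hgt k (q j)) < d * (B + 1)) {z : Fin N → K}
    (hz : ∀ i j (c : k), y i = algebraMap k K c * y j → z i = algebraMap k K c * z j) :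
    ∑ j, q j * z j ^ d = 0 := by
  classical
  refine sum_classes (Pr k y) (Pr.equiv y) _ fun l => ?_
  have h1 := class_coef hd0 hd hy q hq hB l
  by_cases hl : y l = 0
  · refine Finset.sum_eq_zero fun j hj => ?_
    obtain ⟨c, -, hc⟩ := (Finset.mem_filter.1 hj).2
    have h2 := hz j j 0 (by rw [hc, hl, map_zero]; simp)
    rw [h2, map_zero, zero_mul, zero_pow hd0.ne', mul_zero]
  · have h2 : ∑ j ∈ Finset.univ.filter (fun j => Pr k y l j), q j * z j ^ d =
        (∑ j ∈ Finset.univ.filter (fun j => Pr k y l j), q j * y j ^ d) *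
          ((y l ^ d)⁻¹ * z l ^ d) := by
      rw [Finset.sum_mul]
      refine Finset.sum_congr rfl fun j hj => ?_
      obtain ⟨c, -, hc⟩ := (Finset.mem_filter.1 hj).2
      rw [hz j l c hc, hc]
      have := pow_ne_zero d hl
      rw [mul_pow, mul_pow]
      field_simp
    rw [h2, h1, zero_mul]

/-- **Relations pass to the coordinates of the coefficients.** -/
theorem funct_sum {N d : ℕ} (hd0 : 0 < d) (hd : 2 * (N - 1) ^ 2 ≤ d) {B : ℤ} {y : Fin N → K}
    (hy : Gap k B y) (q : Fin N → K) (hq : ∑ j, q j * y j ^ d = 0)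
    (hB : gc N * (max (canDeg k K) 0 + ∑ j, hgt k (q j)) < d * (B + 1)) (φ : K →ₗ[k] k) :
    ∑ j, algebraMap k K (φ (q j)) * y j ^ d = 0 := by
  classical
  refine sum_classes (Pr k y) (Pr.equiv y) _ fun l => ?_
  have h1 := class_coef hd0 hd hy q hq hB l
  by_cases hl : y l = 0
  · refine Finset.sum_eq_zero fun j hj => ?_
    obtain ⟨c, -, hc⟩ := (Finset.mem_filter.1 hj).2
    rw [hc, hl, mul_zero, zero_pow hd0.ne', mul_zero]
  · have h3 : ∀ j, ∃ c : k, Pr k y l j → y j = algebraMap k K c * y l := by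
      intro j
      by_cases h : Pr k y l j
      · obtain ⟨c, -, hc⟩ := h
        exact ⟨c, fun _ => hc⟩
      · exact ⟨0, fun h' => absurd h' h⟩
    choose c hc using h3
    have h4 : ∑ j ∈ Finset.univ.filter (fun j => Pr k y l j), c j ^ d • q j = 0 := by
      have h5 : (∑ j ∈ Finset.univ.filter (fun j => Pr k y l j), c j ^ d • q j) * y l ^ d = 0 := by
        rw [← h1, Finset.sum_mul]
        refine Finset.sum_congr rfl fun j hj => ?_
        rw [hc j (Finset.mem_filter.1 hj).2, Algebra.smul_def, map_pow, mul_pow]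
        ring
      exact (mul_eq_zero.1 h5).resolve_right (pow_ne_zero _ hl)
    have h5 := congrArg φ h4
    rw [map_zero, map_sum] at h5
    have h6 : ∑ j ∈ Finset.univ.filter (fun j => Pr k y l j), algebraMap k K (φ (q j)) * y j ^ d =
        algebraMap k K (∑ j ∈ Finset.univ.filter (fun j => Pr k y l j), φ (c j ^ d • q j)) *
          y l ^ d := by
      rw [map_sum, Finset.sum_mul]
      refine Finset.sum_congr rfl fun j hj => ?_
      rw [map_smul, smul_eq_mul, map_mul, map_pow]
      nth_rewrite 1 [hc j (Finset.mem_filter.1 hj).2]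
      rw [mul_pow]
      ring
    rw [h6, h5, map_zero, zero_mul]

end Pool.Agent.TH710.DY
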