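import Pool.Agent.TH710.DY.Tow

/-!
Return sets of orbits of linear images of power maps.
-/

set_option autoImplicit false

open FF Filter MvPolynomial Pool.Agent.W603.LV Pool.Agent.TH710.ND Pool.Agent.TH710.NU

namespace Pool.Agent.TH710.DY

variable {k K : Type} [Field k] [Field K] [Algebra k K] [CharZero k] [IsFF k K] [IsAlgClosed k]

/-- After a step, all coordinates are far. -/
theorem far_first {N d : ℕ} (hN : 0 < N) (hd : 4 * N ^ 3 ≤ d)
    (A : Matrix (Fin N) (Fin N) K) (hA : Minors A) {B : ℤ}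
    (hB : max (canDeg k K) 0 + msum k A ≤ B) {y : Fin N → K} {l m : Fin N} (hlm : l ≠ m)
    (hl : FarAt k B y l) (hm : FarAt k B y m) : Far k B (step d A y) := by
  obtain ⟨hd0, hd1, -⟩ := four_cube hN hd
  have hm0 := msum_nonneg (k := k) A
  have hc := le_max_right (canDeg k K) 0
  refine far_step2 (k := k) hd0 hd1 A hA (by linarith) ?_ hlm hl hm
  exact bound_step hN hd hc hm0 rfl hB (by linarith) (by linarith)

/-- the condition on the starting point -/
def Start {N : ℕ} (k : Type) [Field k] [Algebra k K] (A : Matrix (Fin N) (Fin N) K) (B : ℤ)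
    (y : Fin N → K) : Prop :=
  Far k B y ∨ (Minors A ∧ ∃ l m, l ≠ m ∧ FarAt k B y l ∧ FarAt k B y m)

theorem Start.far {N d : ℕ} (hN : 0 < N) (hd : 4 * N ^ 3 ≤ d)
    {A : Matrix (Fin N) (Fin N) K} (hA : A.det ≠ 0) {B : ℤ}
    (hB : max (canDeg k K) 0 + msum k A ≤ B) {y : Fin N → K} (h : Start k A B y) (i : ℕ) :
    Far k (i : ℤ) ((step d A)^[i + 1] y) := by
  have hm0 := msum_nonneg (k := k) A
  have hc := le_max_right (canDeg k K) 0
  have key : Far k B (step d A y) := by
    rcases h with h | ⟨h1, l, m, hlm, hl, hm⟩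
    · have h2 := far_orbit (k := k) hN hd A hA hB h 1
      rw [Function.iterate_one] at h2
      exact ⟨h2.1, fun i j hij => lt_of_le_of_lt (by push_cast; linarith) (h2.2 i j hij)⟩
    · exact far_first (k := k) hN hd A h1 hB hlm hl hm
  have h2 := far_orbit (k := k) hN hd A hA hB key i
  rw [Function.iterate_succ_apply]
  exact ⟨h2.1, fun a b hab => lt_of_le_of_lt (by linarith) (h2.2 a b hab)⟩

/-- **The return set** of a hypersurface given by a nested sum of few high powers of linear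
forms is finite. -/
theorem return_finite {n d : ℕ} (hd : 4 * (n + 1) ^ 3 ≤ d)
    {A : Matrix (Fin (n + 1)) (Fin (n + 1)) K} (hA : A.det ≠ 0) {B : ℤ}
    (hB : max (canDeg k K) 0 + msum k A ≤ B) {y : Fin (n + 1) → K} (h : Start k A B y)
    {F : MvPolynomial (Fin (n + 1)) K} (hF : Tower F) (hF0 : F ≠ 0) :
    {m : ℕ | aeval ((step d A)^[m] y) F = 0}.Finite := by
  by_contra hinf
  have hinf' : Set.Infinite {m : ℕ | aeval ((step d A)^[m] y) F = 0} := hinf
  apply hF0
  have h1 : ∀ i : ℕ, ∃ m, i + 2 ≤ m ∧ aeval ((step d A)^[m] y) F = 0 := by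
    intro i
    obtain ⟨m, hm, hlt⟩ := hinf'.exists_gt (i + 1)
    exact ⟨m, hlt, hm⟩
  choose φ hφ1 hφ2 using h1
  refine tower_zero (k := k) hd hA (fun i => (step d A)^[φ i - 1] y) (fun i => ?_) hF (fun i => ?_)
  · have h2 := h.far (k := k) (Nat.succ_pos n) hd hA hB (φ i - 2)
    have h3 : φ i - 2 + 1 = φ i - 1 := by have := hφ1 i; omega
    rw [h3] at h2
    have h4 : (i : ℤ) ≤ ((φ i - 2 : ℕ) : ℤ) := by
      have := hφ1 i
      omega
    exact ⟨h2.1, fun a b hab => lt_of_le_of_lt h4 (h2.2 a b hab)⟩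
  · rw [← Function.iterate_succ_apply' (step d A)]
    have h3 : (φ i - 1).succ = φ i := by have := hφ1 i; omega
    rw [h3]
    exact hφ2 i

/-- the map over the complex numbers -/
def cstep {N : ℕ} (σ : K →+* ℂ) (d : ℕ) (A : Matrix (Fin N) (Fin N) K) (x : Fin N → ℂ) :
    Fin N → ℂ := fun i => ∑ j, σ (A i j) * x j ^ d

omit [CharZero k] [IsFF k K] [IsAlgClosed k] in
theorem cstep_iter {N : ℕ} (σ : K →+* ℂ) (d : ℕ) (A : Matrix (Fin N) (Fin N) K) (y : Fin N → K)
    (m : ℕ) : (cstep σ d A)^[m] (fun i => σ (y i)) = fun i => σ ((step d A)^[m] y i) := by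
  induction m with
  | zero => rfl
  | succ m ih =>
    rw [Function.iterate_succ_apply', ih, Function.iterate_succ_apply']
    funext i
    simp only [cstep, step, map_sum, map_mul, map_pow]

omit [CharZero k] [IsFF k K] [IsAlgClosed k] [Algebra k K] in
theorem eval_sigma {N : ℕ} (σ : K →+* ℂ) (y : Fin N → K) (p : MvPolynomial (Fin N) K) :
    eval (fun i => σ (y i)) (map σ p) = σ (aeval y p) := by
  rw [eval_map, aeval_def, eval₂_comp_left σ]
  rfl

omit [CharZero k] [IsFF k K] [IsAlgClosed k] in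
theorem cstep_zero {N d : ℕ} (hd : 0 < d) (σ : K →+* ℂ) {A : Matrix (Fin N) (Fin N) K}
    (hA : A.det ≠ 0) (x : Fin N → ℂ) (h : cstep σ d A x = 0) : x = 0 := by
  have h1 : (A.map σ).mulVec (fun j => x j ^ d) = 0 := h
  have h2 : (A.map σ).det ≠ 0 := by
    rw [← RingHom.mapMatrix_apply, ← RingHom.map_det]
    exact (map_ne_zero σ).2 hA
  have h3 := Matrix.eq_zero_of_mulVec_eq_zero h2 h1
  funext j
  exact pow_eq_zero_iff hd.ne' |>.1 (congrFun h3 j)

end Pool.Agent.TH710.DY
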