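import Pool.Agent.TH710.DY.Base
import Pool.Agent.TH710.DY.Main

/-!
Forms with complex coefficients at the points of an orbit of a skew product.
-/

set_option autoImplicit false

open FF MvPolynomial Pool.Agent.W603.LV Pool.Agent.W603.CY

namespace Pool.Agent.TH710.DY

variable {k K : Type} [Field k] [Field K] [Algebra k K] {r N : ℕ}

/-- `(e + 1) ^ m` dominates the multiples of `e ^ m`. -/
theorem dominate {e : ℕ} (he : 0 < e) (c : ℕ) {m : ℕ} (hm : e * c ≤ m) :
    (c : ℤ) * e ^ m < (e + 1) ^ m := by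
  have he1 : (1 : ℤ) ≤ e := by exact_mod_cast he
  have key : ∀ m : ℕ, ((e : ℤ) + m) * e ^ m ≤ e * (e + 1) ^ m := by
    intro m
    induction m with
    | zero => simp
    | succ m ih =>
      have h1 : (0 : ℤ) ≤ (e : ℤ) ^ m := by positivity
      have h2 := mul_le_mul_of_nonneg_left ih (by linarith : (0 : ℤ) ≤ e + 1)
      have h3 : (e : ℤ) * (e + 1) ^ (m + 1) = (e + 1) * (e * (e + 1) ^ m) := by ring
      have h4 : ((e : ℤ) + (m + 1 : ℕ)) * (e : ℤ) ^ (m + 1) =
          (e + m + 1) * e * (e : ℤ) ^ m := by push_cast; ring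
      rw [h3, h4]
      refine le_trans ?_ h2
      have h5 : ((e : ℤ) + 1) * ((e + m) * (e : ℤ) ^ m) =
          ((e + m + 1) * e) * (e : ℤ) ^ m + m * (e : ℤ) ^ m := by ring
      rw [h5]
      have h6 : (0 : ℤ) ≤ m * (e : ℤ) ^ m := by positivity
      linarith
  have h1 := key m
  have h2 : ((e : ℤ) * c) ≤ m := by exact_mod_cast hm
  have h3 : (0 : ℤ) < (e : ℤ) ^ m := by positivity
  have h4 : (e : ℤ) * (c * (e : ℤ) ^ m) < e * (e + 1) ^ m := by
    have h5 : ((e : ℤ) + e * c) * (e : ℤ) ^ m ≤ ((e : ℤ) + m) * (e : ℤ) ^ m :=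
      mul_le_mul_of_nonneg_right (by linarith) h3.le
    nlinarith
  exact lt_of_mul_lt_mul_left h4 (by linarith)

/-- the polynomial over `K` obtained by applying an additive map to the coefficients -/
noncomputable def phip (φ : ℂ →+ K) (p : MvPolynomial (Fin r) ℂ) : MvPolynomial (Fin r) K :=
  ∑ β ∈ p.support, monomial β (φ (coeff β p))

theorem phip_deg (φ : ℂ →+ K) (p : MvPolynomial (Fin r) ℂ) :
    (phip φ p).totalDegree ≤ p.totalDegree := by
  unfold phip
  refine totalDegree_finsetSum_le fun β hβ => ?_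
  exact (totalDegree_monomial_le _ _).trans (le_totalDegree hβ)

theorem phip_eval {σ : K →+* ℂ} {φ : ℂ →+ K} (hφ : ∀ a c, φ (σ a * c) = a * φ c)
    (p : MvPolynomial (Fin r) ℂ) (y : Fin r → K) :
    aeval y (phip φ p) = φ (eval (fun i => σ (y i)) p) := by
  unfold phip
  rw [map_sum, eval_eq', map_sum]
  refine Finset.sum_congr rfl fun β _ => ?_
  have h1 : ∏ i, σ (y i) ^ β i = σ (∏ i, y i ^ β i) := by
    rw [map_prod]
    exact Finset.prod_congr rfl fun i _ => (map_pow σ _ _).symm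
  rw [aeval_monomial, Finsupp.prod_fintype _ _ fun i => pow_zero _, h1, mul_comm (coeff β p), hφ]
  rw [mul_comm]
  rfl

/-- the fibre polynomial over `K` -/
noncomputable def fib (σ : K →+* ℂ) (φ : ℂ →+ K)
    (F : MvPolynomial (Fin N) (MvPolynomial (Fin r) ℂ)) (y : Fin r → K) :
    MvPolynomial (Fin N) K :=
  ∑ κ ∈ F.support, monomial κ (φ (eval (fun i => σ (y i)) (coeff κ F)))

theorem fib_coeff (σ : K →+* ℂ) (φ : ℂ →+ K)
    (F : MvPolynomial (Fin N) (MvPolynomial (Fin r) ℂ)) (y : Fin r → K) (κ : Fin N →₀ ℕ) :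
    coeff κ (fib σ φ F y) = φ (eval (fun i => σ (y i)) (coeff κ F)) := by
  classical
  unfold fib
  rw [coeff_sum]
  simp only [coeff_monomial]
  rw [Finset.sum_ite_eq' F.support κ]
  split_ifs with h
  · rfl
  · rw [notMem_support_iff.1 h, map_zero, map_zero]

theorem fib_hom (σ : K →+* ℂ) (φ : ℂ →+ K)
    {F : MvPolynomial (Fin N) (MvPolynomial (Fin r) ℂ)} {δ : ℕ} (hF : F.IsHomogeneous δ)
    (y : Fin r → K) : (fib σ φ F y).IsHomogeneous δ := by
  intro κ hκ
  apply hF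
  intro h0
  apply hκ
  rw [fib_coeff, h0, map_zero, map_zero]

theorem fib_eval {σ : K →+* ℂ} {φ : ℂ →+ K} (hφ : ∀ a c, φ (σ a * c) = a * φ c)
    (F : MvPolynomial (Fin N) (MvPolynomial (Fin r) ℂ)) (x : Fin N → K) (y : Fin r → K) :
    aeval x (fib σ φ F y) =
      φ (eval (fun i => σ (x i)) (map (eval fun i => σ (y i)) F)) := by
  unfold fib
  rw [map_sum, eval_map, eval₂_eq', map_sum]
  refine Finset.sum_congr rfl fun κ _ => ?_
  have h1 : ∏ i, σ (x i) ^ κ i = σ (∏ i, x i ^ κ i) := by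
    rw [map_prod]
    exact Finset.prod_congr rfl fun i _ => (map_pow σ _ _).symm
  rw [aeval_monomial, Finsupp.prod_fintype _ _ fun i => pow_zero _, h1,
    mul_comm ((eval _) _), hφ, mul_comm]
  rfl

variable [CharZero k] [IsFF k K] [IsAlgClosed k]

/-- **The fibre polynomials vanish** at late points of an orbit on the zero set. -/
theorem fib_zero {δ δ' s e : ℕ} (hN : 0 < N) (hδ' : δ' ≤ δ) (hs0 : 0 < s)
    (hs : (mons N δ).card ≤ s)
    (he : 0 < e) (hd0 : 0 < e) {d : ℕ} (hd : (e + 1) * qc s δ ≤ d)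
    (A : ℕ → Matrix (Fin N) (Fin N) K)
    (hA : ∀ m, (A m).det ≠ 0) {a : ℤ} (ha0 : 0 ≤ a) (ha : ∀ m, msum k (A m) ≤ a * e ^ m)
    (x : ℕ → Fin N → K) (hx : ∀ m, x (m + 1) = step d (A m) (x m))
    (hx1 : ∀ m, FarM k δ ((max (canDeg k K) 0 + a) * e ^ m + ((e + 1) ^ m - 1)) (x m))
    (y : ℕ → Fin r → K) {b : ℤ} (hb0 : 0 ≤ b) (hb : ∀ m, mapDeg k (y m) ≤ b * e ^ m)
    {σ : K →+* ℂ} {φ : ℂ →+ K} (hφ : ∀ a c, φ (σ a * c) = a * φ c)
    {F : MvPolynomial (Fin N) (MvPolynomial (Fin r) ℂ)} (hF : F.IsHomogeneous δ') :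
    ∃ m0 : ℕ, ∀ m, m0 ≤ m →
      eval (fun i => σ (x m i)) (map (eval fun i => σ (y m i)) F) = 0 →
      fib σ φ F (y m) = 0 := by
  classical
  obtain ⟨hdd, hd1⟩ := qc_two hs0 hd
  have he1 : (1 : ℤ) ≤ e := by exact_mod_cast he
  have hc := le_max_right (canDeg k K) 0
  set g : ℤ := max (canDeg k K) 0 with hgd
  -- the heights of the coefficients of the fibre polynomials
  obtain ⟨c, hc1⟩ : ∃ c : ℕ, ∀ m : ℕ, ∑ κ : F.support, hgt k (coeff κ.1 (fib σ φ F (y m))) ≤
      c * (e : ℤ) ^ m := by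
    refine ⟨(∑ κ : F.support, (((coeff κ.1 F).totalDegree : ℤ) * b +
      csum k (phip φ (coeff κ.1 F)))).toNat, fun m => ?_⟩
    have h1 : ∀ κ : F.support, hgt k (coeff κ.1 (fib σ φ F (y m))) ≤
        (((coeff κ.1 F).totalDegree : ℤ) * b + csum k (phip φ (coeff κ.1 F))) * (e : ℤ) ^ m := by
      intro κ
      rw [fib_coeff, ← phip_eval hφ]
      refine (hgt_poly (y m) _ (phip_deg φ (coeff κ.1 F))).trans ?_
      have h2 := mul_le_mul_of_nonneg_left (hb m)
        (by positivity : (0 : ℤ) ≤ ((coeff κ.1 F).totalDegree : ℤ))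
      have h3 : (1 : ℤ) ≤ (e : ℤ) ^ m := one_le_pow₀ he1
      have h4 := csum_nonneg (k := k) (phip φ (coeff κ.1 F))
      nlinarith
    refine (Finset.sum_le_sum fun κ _ => h1 κ).trans ?_
    rw [← Finset.sum_mul]
    exact mul_le_mul_of_nonneg_right (Int.self_le_toNat _) (by positivity)
  refine ⟨e * c + 1, fun m hm h0 => ?_⟩
  obtain ⟨m, rfl⟩ : ∃ q, m = q + 1 := ⟨m - 1, by omega⟩
  -- the form of degree `δ`
  let i0 : Fin N := ⟨0, hN⟩
  set G : MvPolynomial (Fin N) K := fib σ φ F (y (m + 1)) * X i0 ^ (δ - δ') with hG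
  have hGh : G.IsHomogeneous δ := by
    have h1 := (fib_hom σ φ hF (y (m + 1))).mul ((isHomogeneous_X K i0).pow (δ - δ'))
    rw [one_mul, Nat.add_sub_of_le hδ'] at h1
    exact h1
  let ρ := F.support ⊕ (Fin N × Fin N)
  let rr : ρ → K := Sum.elim (fun κ => coeff κ.1 (fib σ φ F (y (m + 1)))) fun p => A m p.1 p.2
  have hGr : PP k rr 1 G := by
    refine ((?_ : PP k rr 1 (fib σ φ F (y (m + 1)))).mul
      ((PP.X (D := 0) i0).pow (δ - δ'))).mono (by omega)
    intro κ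
    by_cases hκ : κ ∈ F.support
    · exact PD.var (k := k) (r := rr) (Sum.inl ⟨κ, hκ⟩)
    · rw [fib_coeff, notMem_support_iff.1 hκ, map_zero, map_zero]
      exact PD.zero
  have hrs : ∑ a, hgt k (rr a) ≤ c * (e : ℤ) ^ (m + 1) + a * e ^ m := by
    rw [Fintype.sum_sum_type, Fintype.sum_prod_type]
    exact add_le_add (hc1 (m + 1)) (ha m)
  have hG0 : G = 0 := by
    have h1 : (1 : ℤ) ≤ (e : ℤ) ^ m := one_le_pow₀ he1
    have h2 : (1 : ℤ) ≤ ((e : ℤ) + 1) ^ m := one_le_pow₀ (by linarith)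
    have h3 : 0 ≤ (g + a) * (e : ℤ) ^ m := mul_nonneg (by linarith) (by positivity)
    have h4 : (0 : ℤ) ≤ c * (e : ℤ) ^ (m + 1) := by positivity
    have h5 : (0 : ℤ) ≤ a * (e : ℤ) ^ m := mul_nonneg ha0 (by positivity)
    have h6 : gc s * (g + s * ((δ + 1 : ℕ) * (c * (e : ℤ) ^ (m + 1) + a * e ^ m))) <
        d * (((g + a) * (e : ℤ) ^ m + (((e : ℤ) + 1) ^ m - 1)) + 1) := by
      refine qc_bound hs0 hd hc h5 h4 (by linarith) ?_
      have h7 := dominate he c (m := m + 1) (by omega)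
      have h8 : ((e : ℤ) + 1) ^ (m + 1) = (e + 1) * ((e : ℤ) + 1) ^ m := by ring
      have h9 : g + a * (e : ℤ) ^ m ≤ (g + a) * (e : ℤ) ^ m := by nlinarith
      rw [h8] at h7
      nlinarith
    refine form_zero (k := k) (r := rr) hs hdd hd1 (hA m) (fun i j => ?_) hGh hGr (hx1 m)
      (lt_of_le_of_lt ?_ h6) ?_
    · exact PD.var (k := k) (r := rr) (Sum.inr (i, j))
    · refine mul_le_mul_of_nonneg_left ?_ (by linarith [gc_pos s])
      have h7 : (s : ℤ) * ((δ + 1 : ℕ) * ∑ a, hgt k (rr a)) ≤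
          s * ((δ + 1 : ℕ) * (c * (e : ℤ) ^ (m + 1) + a * e ^ m)) :=
        mul_le_mul_of_nonneg_left (mul_le_mul_of_nonneg_left hrs (by positivity))
          (by positivity)
      linarith
    · rw [← hx m, hG, map_mul, fib_eval hφ, h0, map_zero, zero_mul]
  rcases mul_eq_zero.1 hG0 with h | h
  · exact h
  · exact absurd h (pow_ne_zero _ (X_ne_zero i0))

/-- Late points of an orbit on the zero set of a form lie over points where the form vanishes
identically. -/
theorem fiber_zero {δ δ' s e : ℕ} (hN : 0 < N) (hδ' : δ' ≤ δ) (hs0 : 0 < s)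
    (hs : (mons N δ).card ≤ s)
    (he : 0 < e) {d : ℕ} (hd : (e + 1) * qc s δ ≤ d)
    (A : ℕ → Matrix (Fin N) (Fin N) K)
    (hA : ∀ m, (A m).det ≠ 0) {a : ℤ} (ha0 : 0 ≤ a) (ha : ∀ m, msum k (A m) ≤ a * e ^ m)
    (x : ℕ → Fin N → K) (hx : ∀ m, x (m + 1) = step d (A m) (x m))
    (hx1 : ∀ m, FarM k δ ((max (canDeg k K) 0 + a) * e ^ m + ((e + 1) ^ m - 1)) (x m))
    (y : ℕ → Fin r → K) {b : ℤ} (hb0 : 0 ≤ b) (hb : ∀ m, mapDeg k (y m) ≤ b * e ^ m)
    (σ : K →+* ℂ) {F : MvPolynomial (Fin N) (MvPolynomial (Fin r) ℂ)}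
    (hF : F.IsHomogeneous δ') :
    ∃ m0 : ℕ, ∀ m, m0 ≤ m →
      eval (fun i => σ (x m i)) (map (eval fun i => σ (y m i)) F) = 0 →
      map (eval fun i => σ (y m i)) F = 0 := by
  classical
  letI : Algebra K ℂ := σ.toAlgebra
  let bs := Module.Basis.ofVectorSpace K ℂ
  let φ : Module.Basis.ofVectorSpaceIndex K ℂ → ℂ →+ K := fun b => (bs.coord b).toAddMonoidHom
  have hφ : ∀ b a c, φ b (σ a * c) = a * φ b c := by
    intro b a c
    change bs.coord b (a • c) = a * bs.coord b c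
    rw [map_smul, smul_eq_mul]
  choose m0 hm0 using fun b => fib_zero (k := k) hN hδ' hs0 hs he he hd A hA ha0 ha x hx hx1 y
    hb0 hb (hφ b) hF
  -- the finitely many coordinates that matter
  let I : Finset (Module.Basis.ofVectorSpaceIndex K ℂ) :=
    F.support.biUnion fun κ => (coeff κ F).support.biUnion fun β =>
      (bs.repr (coeff β (coeff κ F))).support
  refine ⟨I.sup m0, fun m hm h0 => ?_⟩
  have h1 : ∀ b, fib σ (φ b) F (y m) = 0 := by
    intro b
    by_cases hb' : b ∈ I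
    · exact hm0 b m ((Finset.le_sup hb').trans hm) h0
    · unfold fib
      refine Finset.sum_eq_zero fun κ hκ => ?_
      rw [← phip_eval (hφ b)]
      have h2 : phip (φ b) (coeff κ F) = 0 := by
        unfold phip
        refine Finset.sum_eq_zero fun β hβ => ?_
        have h3 : φ b (coeff β (coeff κ F)) = 0 := by
          by_contra h4
          apply hb'
          rw [Finset.mem_biUnion]
          refine ⟨κ, hκ, ?_⟩
          rw [Finset.mem_biUnion]
          exact ⟨β, hβ, Finsupp.mem_support_iff.2 h4⟩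
        rw [h3, map_zero]
      rw [h2, map_zero, map_zero]
  ext κ
  rw [coeff_map, coeff_zero]
  have h2 : ∀ b, bs.coord b (eval (fun i => σ (y m i)) (coeff κ F)) = 0 := by
    intro b
    have h3 := fib_coeff σ (φ b) F (y m) κ
    rw [h1 b, coeff_zero] at h3
    exact h3.symm
  exact bs.forall_coord_eq_zero_iff.1 h2

end Pool.Agent.TH710.DY
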