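import Pool.Agent.W603.LV.Blk2
import Pool.Agent.W603.LV.Root
import Pool.Agent.W603.CY.Proj

/-!
Vanishing sums of few high powers with coefficients of small height over a function field, with
explicit constants.
-/

set_option autoImplicit false

open FF Pool.Agent.W603.LV

namespace Pool.Agent.TH710.DY

variable {k K : Type} [Field k] [Field K] [Algebra k K] [CharZero k] [IsFF k K] [IsAlgClosed k]

/-- The height inequality, for orders divisible by a number that is large. -/
theorem height_ineq2 (S : Finset (Place k K)) {m N : ℕ} (hN0 : 0 < N) (hN : 2 * m ^ 2 ≤ N)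
    (f : Fin (m + 1) → K) (hf0 : ∀ i, f i ≠ 0) (hsum : ∑ i, f i = 0)
    (hlin : LinearIndependent k (fun l => f ((Fin.last m).succAbove l)))
    (hdvd : ∀ P ∉ S, ∀ i j, (N : ℤ) ∣ P.ord (f i) - P.ord (f j)) (i j : Fin (m + 1)) :
    hgt k (f i / f j) ≤ 2 * tri m * (canDeg k K + S.card) := by
  classical
  obtain ⟨D, hD⟩ := exists_der (k := k) (K := K)
  have hW := wr_ne_zero hD _ hlin
  set W := wr D (fun l => f ((Fin.last m).succAbove l)) with hWd
  -- the minimal orders
  have hmin : ∀ P : Place k K, ∃ i0, ∀ i, P.ord (f i0) ≤ P.ord (f i) := by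
    intro P
    obtain ⟨i0, -, h⟩ := Finset.exists_min_image Finset.univ (fun i => P.ord (f i))
      ⟨0, Finset.mem_univ _⟩
    exact ⟨i0, fun i => h i (Finset.mem_univ _)⟩
  choose i0 hi0 using hmin
  set μ : Place k K → ℤ := fun P => P.ord (f (i0 P)) with hμ
  -- a large finite set
  obtain ⟨T1, hT1⟩ := exists_supp (k := k) Finset.univ f
  obtain ⟨T2, hT2⟩ := exists_supp (k := k) (Finset.univ : Finset (Fin 1)) ![W]
  set T : Finset (Place k K) := T1 ∪ T2 ∪ (vo_finite hD).toFinset ∪ S with hT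
  have hTf : ∀ i, ∀ P : Place k K, P.ord (f i) ≠ 0 → P ∈ T := by
    intro i P hP
    have := hT1 i (Finset.mem_univ _) P hP
    simp [hT, this]
  have hTW : ∀ P : Place k K, P.ord W ≠ 0 → P ∈ T := by
    intro P hP
    have := hT2 0 (Finset.mem_univ _) P hP
    simp [hT, this]
  have hTv : ∀ P : Place k K, vo P D ≠ 0 → P ∈ T := by
    intro P hP
    simp [hT, hP]
  have hST : S ⊆ T := by
    intro P hP
    simp [hT, hP]
  set n : Place k K → ℤ := fun P => ((Finset.univ.filter fun i => μ P < P.ord (f i)).card : ℤ)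
    with hn
  set H : ℤ := - ∑ P ∈ T, μ P with hH
  have hsumf : ∀ i, ∑ P ∈ T, P.ord (f i) = 0 := fun i => sum_ord_finset _ T (hTf i)
  -- local estimates
  have hloc : ∀ P ∈ T, tri m * vo P D + ∑ i, P.ord (f i) - μ P -
      (if P ∈ S then tri m else ((m - 1 : ℕ) : ℤ) * n P) ≤ P.ord W := by
    intro P _
    refine local_est P hD f hf0 hsum hW (μ P) (hi0 P) (i0 P) rfl _ ?_
    by_cases hPS : P ∈ S
    · left; rw [if_pos hPS]
    · right; rw [if_neg hPS]
  have h1 := Finset.sum_le_sum hloc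
  rw [sum_ord_finset W T hTW] at h1
  have h2 : ∑ P ∈ T, (tri m * vo P D + ∑ i, P.ord (f i) - μ P -
      (if P ∈ S then tri m else ((m - 1 : ℕ) : ℤ) * n P)) =
      tri m * (- canDeg k K) + H - (tri m * S.card + ((m - 1 : ℕ) : ℤ) * ∑ P ∈ T \ S, n P) := by
    rw [Finset.sum_sub_distrib, Finset.sum_sub_distrib, Finset.sum_add_distrib, ← Finset.mul_sum,
      canDeg_finset hD T hTv, Finset.sum_comm, Finset.sum_congr rfl fun i _ => hsumf i]
    have h3 : ∑ P ∈ T, (if P ∈ S then tri m else ((m - 1 : ℕ) : ℤ) * n P) =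
        tri m * S.card + ((m - 1 : ℕ) : ℤ) * ∑ P ∈ T \ S, n P := by
      rw [← Finset.sum_sdiff hST, add_comm, Finset.mul_sum]
      congr 1
      · rw [Finset.sum_congr rfl fun P hP => if_pos hP, Finset.sum_const, nsmul_eq_mul, mul_comm]
      · exact Finset.sum_congr rfl fun P hP => if_neg (Finset.mem_sdiff.1 hP).2
    rw [h3, hH]
    simp only [Finset.sum_const_zero, add_zero]
    ring
  rw [h2] at h1
  -- powers
  have h4 : ∀ P ∈ T \ S, (N : ℤ) * n P ≤ ∑ i, (P.ord (f i) - μ P) := by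
    intro P hP
    have hPS := (Finset.mem_sdiff.1 hP).2
    have h5 : (N : ℤ) * n P = ∑ i, if μ P < P.ord (f i) then (N : ℤ) else 0 := by
      rw [← Finset.sum_filter, Finset.sum_const, nsmul_eq_mul, mul_comm]
    rw [h5]
    refine Finset.sum_le_sum fun i _ => ?_
    split_ifs with h6
    · exact Int.le_of_dvd (by linarith) (hdvd P hPS i (i0 P))
    · exact sub_nonneg.2 (hi0 P i)
  have h5 : ∀ P ∈ T, 0 ≤ ∑ i, (P.ord (f i) - μ P) := fun P _ =>
    Finset.sum_nonneg fun i _ => sub_nonneg.2 (hi0 P i)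
  have h6 : ∑ P ∈ T, ∑ i, (P.ord (f i) - μ P) = (m + 1) * H := by
    rw [Finset.sum_comm]
    have : ∀ i : Fin (m + 1), ∑ P ∈ T, (P.ord (f i) - μ P) = H := by
      intro i
      rw [Finset.sum_sub_distrib, hsumf, hH]; ring
    rw [Finset.sum_congr rfl fun i _ => this i, Finset.sum_const]
    simp
  have h7 : (N : ℤ) * ∑ P ∈ T \ S, n P ≤ (m + 1) * H := by
    rw [← h6, Finset.mul_sum]
    refine (Finset.sum_le_sum h4).trans ?_
    exact Finset.sum_le_sum_of_subset_of_nonneg Finset.sdiff_subset fun P hP _ => h5 P hP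
  have hH0 : 0 ≤ H := by
    have : ∑ P ∈ T, (P.ord (f 0) - μ P) = H := by
      rw [Finset.sum_sub_distrib, hsumf, hH]; ring
    rw [← this]
    exact Finset.sum_nonneg fun P _ => sub_nonneg.2 (hi0 P 0)
  have h8 : H ≤ 2 * tri m * (canDeg k K + S.card) := by
    have hNm : 2 * (m : ℤ) ^ 2 ≤ N := by exact_mod_cast hN
    have hN0' : (1 : ℤ) ≤ N := by exact_mod_cast hN0
    have h9 : (N : ℤ) * H ≤ N * (tri m * (canDeg k K + S.card)) +
        ((m - 1 : ℕ) : ℤ) * ((m + 1) * H) := by
      have h10 := mul_le_mul_of_nonneg_left h1 (by positivity : (0 : ℤ) ≤ N)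
      have h11 := mul_le_mul_of_nonneg_left h7 (by positivity : (0 : ℤ) ≤ ((m - 1 : ℕ) : ℤ))
      nlinarith
    have h13 : (N : ℤ) * H ≤ N * (2 * tri m * (canDeg k K + S.card)) := by
      rcases Nat.eq_zero_or_pos m with rfl | hm
      · simp only [Nat.zero_sub, Nat.cast_zero, zero_mul, add_zero] at h9
        have h14 : tri 0 = 0 := by simp [tri]
        rw [h14] at h9 ⊢
        linarith
      · have h12 : ((m - 1 : ℕ) : ℤ) = m - 1 := by push_cast [Nat.cast_sub hm]; ring
        rw [h12] at h9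
        nlinarith
    exact le_of_mul_le_mul_left h13 (by linarith)
  refine le_trans ?_ h8
  -- the height of a ratio
  have hij : ∀ P : Place k K, P.ord (f i / f j) ≠ 0 → P ∈ T := by
    intro P hP
    by_contra hcon
    apply hP
    have h9 : P.ord (f i) = 0 := by
      by_contra h; exact hcon (hTf i P h)
    have h10 : P.ord (f j) = 0 := by
      by_contra h; exact hcon (hTf j P h)
    rw [P.ord_div (hf0 i) (hf0 j), h9, h10]; rfl
  rw [hgt_finset _ T hij]
  have h9 : ∑ P ∈ T, (P.ord (f j) - μ P) = H := by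
    rw [Finset.sum_sub_distrib, hsumf, hH]; ring
  rw [← h9]
  refine Finset.sum_le_sum fun P _ => ?_
  rw [P.ord_div (hf0 i) (hf0 j)]
  have := hi0 P i
  have := hi0 P j
  simp only [hμ]
  omega

/-- **A term that is far from the others.** -/
theorem single {J : Type} [Fintype J] (S : Finset (Place k K)) {N s : ℕ}
    (hs : Fintype.card J ≤ s) (hN0 : 0 < N) (hN : 2 * (s - 1) ^ 2 ≤ N) (g : J → K)
    (hg0 : ∀ j, g j ≠ 0) (hrel : ∑ j, g j = 0)
    (hdvd : ∀ P ∉ S, ∀ i j, (N : ℤ) ∣ P.ord (g i) - P.ord (g j)) (l : J) :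
    ∃ j, j ≠ l ∧ hgt k (g l / g j) ≤ 2 * tri s * max (canDeg k K + S.card) 0 := by
  classical
  by_contra hcon
  push Not at hcon
  set χ : ℤ := max (canDeg k K + S.card) 0 with hχ
  have hχ0 : 0 ≤ χ := le_max_right _ _
  have key := class_sum (k := k) g (fun i j => (i = l ↔ j = l))
    ⟨fun i => Iff.rfl, fun h => h.symm, fun h1 h2 => h1.trans h2⟩ (by
      intro m e he c hc hrel' hlin i j
      have hm : m + 1 ≤ s := by
        have := Fintype.card_le_of_injective e he
        simp only [Fintype.card_fin] at this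
        omega
      have h0 : ∀ a b, e a = l → e b = l := by
        intro a b ha
        by_contra hb
        have h1 := height_ineq2 S hN0 (m := m)
          ((Nat.mul_le_mul_left 2 (Nat.pow_le_pow_left (by omega) 2)).trans hN)
          (fun i => c i • g (e i)) (fun i => smul_ne_zero (hc i) (hg0 _)) hrel' hlin (by
            intro P hP i j
            rw [ord_smul P (hc i), ord_smul P (hc j)]
            exact hdvd P hP _ _) a b
        have h2 : hgt k (g (e a) / g (e b)) = hgt k (c a • g (e a) / c b • g (e b)) := by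
          refine hgt_congr fun P => ?_
          rw [P.ord_div (hg0 _) (hg0 _), P.ord_div (smul_ne_zero (hc a) (hg0 _))
            (smul_ne_zero (hc b) (hg0 _)), ord_smul P (hc a), ord_smul P (hc b)]
        have h3 := hcon (e b) hb
        have h4 : (2 : ℤ) * tri m * (canDeg k K + S.card) ≤ 2 * tri s * χ := by
          have h5 : (0 : ℤ) ≤ 2 * tri m := mul_nonneg (by norm_num) (tri_nonneg m)
          exact (mul_le_mul_of_nonneg_left (le_max_left _ _) h5).trans
            (mul_le_mul_of_nonneg_right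
              (mul_le_mul_of_nonneg_left (tri_mono (by omega)) (by norm_num)) hχ0)
        rw [ha] at h2
        rw [h2] at h3
        have h6 := h1.trans h4
        rw [ha] at h6
        linarith
      exact ⟨h0 i j, h0 j i⟩)
    (Finset.univ.filter fun j => (fun _ : J => (1 : k)) j ≠ 0).card (fun _ => 1) le_rfl
    (by simpa using hrel) l
  simp only [one_smul, true_iff] at key
  rw [Finset.filter_eq' Finset.univ l, if_pos (Finset.mem_univ l), Finset.sum_singleton] at key
  exact hg0 l key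

/-- the constant of the gates with at most `s` terms -/
def gc (s : ℕ) : ℤ := 4 * tri s + 1

theorem gc_pos (s : ℕ) : 1 ≤ gc s := by
  have := tri_nonneg s
  unfold gc
  linarith

/-- **Gates**: in a vanishing sum of few terms `c u ^ d`, a term for which `u` is far from the
others vanishes. -/
theorem coef_zero {J : Type} [Fintype J] {d s : ℕ} (hs : Fintype.card J ≤ s)
    (hd0 : 0 < d) (hd : 2 * (s - 1) ^ 2 ≤ d) (c u : J → K) (hrel : ∑ j, c j * u j ^ d = 0)
    (l : J) (hl0 : u l ≠ 0)
    (hl : ∀ j, j ≠ l → u j ≠ 0 →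
      gc s * (max (canDeg k K) 0 + ∑ j, hgt k (c j)) < d * hgt k (u l / u j)) : c l = 0 := by
  classical
  by_contra hcl
  have hT0 : c l * u l ^ d ≠ 0 := mul_ne_zero hcl (pow_ne_zero _ hl0)
  -- the nonzero terms
  have h1 : ∑ j : {j // c j * u j ^ d ≠ 0}, c j.1 * u j.1 ^ d = 0 := by
    rw [← Finset.sum_subtype (Finset.univ.filter fun j => c j * u j ^ d ≠ 0) (by simp)
      (fun j => c j * u j ^ d), Finset.sum_filter_ne_zero]
    exact hrel
  obtain ⟨S, hS, hSc⟩ := Pool.Agent.W603.CY.card_supp (k := k) (K := K) c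
  have hne : ∀ j, c j * u j ^ d ≠ 0 → c j ≠ 0 ∧ u j ≠ 0 := by
    intro j hj
    refine ⟨left_ne_zero_of_mul hj, fun h => ?_⟩
    apply hj
    rw [h, zero_pow hd0.ne', mul_zero]
  obtain ⟨j, hjl, hj⟩ := single (k := k) (J := {j // c j * u j ^ d ≠ 0}) S (s := s) (N := d)
    ((Fintype.card_subtype_le _).trans hs) hd0 hd (fun j => c j.1 * u j.1 ^ d) (fun j => j.2) h1
    (by
      intro P hP a b
      have key : ∀ a : {j // c j * u j ^ d ≠ 0}, P.ord (c a.1 * u a.1 ^ d) =
          d * P.ord (u a.1) := by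
        intro a
        obtain ⟨h2, h3⟩ := hne a.1 a.2
        rw [P.ord_mul h2 (pow_ne_zero _ h3), hS P hP a.1, zero_add, P.ord_pow]
      rw [key, key, ← mul_sub]
      exact dvd_mul_right _ _) ⟨l, hT0⟩
  obtain ⟨hcj, huj⟩ := hne j.1 j.2
  have hjl' : j.1 ≠ l := fun h => hjl (Subtype.ext h)
  have h2 := hl j.1 hjl' huj
  have h3 : hgt k ((u l / u j.1) ^ d) = d * hgt k (u l / u j.1) := hgt_pow (div_ne_zero hl0 huj) d
  have h4 : (u l / u j.1) ^ d = (c l * u l ^ d / (c j.1 * u j.1 ^ d)) * (c j.1 * (c l)⁻¹) := by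
    rw [div_pow]
    have := pow_ne_zero d huj
    field_simp
  have h5 := hgt_mul (k := k) (div_ne_zero hT0 j.2) (mul_ne_zero hcj (inv_ne_zero hcl))
  have h6 := hgt_mul (k := k) hcj (inv_ne_zero hcl)
  rw [hgt_inv] at h6
  rw [← h4, h3] at h5
  have h7 : hgt k (c j.1) + hgt k (c l) ≤ ∑ j, hgt k (c j) := by
    rw [← Finset.sum_pair (f := fun j => hgt k (c j)) hjl']
    exact Finset.sum_le_sum_of_subset_of_nonneg (Finset.subset_univ _)
      fun i _ _ => hgt_nonneg _
  have h8 : max (canDeg k K + S.card) 0 ≤ max (canDeg k K) 0 + 2 * ∑ j, hgt k (c j) := by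
    have h9 : (0 : ℤ) ≤ ∑ j, hgt k (c j) := Finset.sum_nonneg fun j _ => hgt_nonneg _
    have h10 := le_max_left (canDeg k K) 0
    have h11 := le_max_right (canDeg k K) 0
    rw [← Finset.mul_sum] at hSc
    apply max_le <;> linarith
  have h9 := mul_le_mul_of_nonneg_left h8 (mul_nonneg (by norm_num) (tri_nonneg s) :
    (0 : ℤ) ≤ 2 * tri s)
  have h10 : (0 : ℤ) ≤ max (canDeg k K) 0 := le_max_right _ _
  have h11 := tri_nonneg s
  have h12 := mul_nonneg h11 h10
  unfold gc at h2
  nlinarith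

end Pool.Agent.TH710.DY
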