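import Pool.Agent.TH710.DY.Cut
import Pool.Agent.TH710.DY.Ap

/-!
Orbits of linear images of power maps over the constants: the linear relations between the
coordinates are eventually periodic.
-/

set_option autoImplicit false

open FF Pool.Agent.W603.LV Pool.Agent.W603.CY

namespace Pool.Agent.TH710.DY

theorem IsAP.evp {P : ℕ → Prop} {a p : ℕ} (hp : 0 < p) (h : ∀ m, a ≤ m → (P (m + p) ↔ P m)) :
    IsAP {m | P m} := by
  have hf : ∀ m : ℕ, (fun (g : ℕ → Prop) n => g (n + 1))^[m] P = fun n => P (n + m) := by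
    intro m
    induction m with
    | zero => rfl
    | succ m ih =>
      rw [Function.iterate_succ_apply', ih]
      funext n
      change P (n + 1 + m) = P (n + (m + 1))
      rw [add_assoc, add_comm 1 m]
  have h1 := IsAP.preper (fun (g : ℕ → Prop) n => g (n + 1)) P (a := a) (b := a + p)
    (by omega) (by
      rw [hf, hf]
      funext n
      have := h (n + a) (by omega)
      rw [← add_assoc]
      exact propext this.symm) fun g => g 0
  simp only [hf, zero_add] at h1
  exact h1

variable {k K : Type} [Field k] [Field K] [Algebra k K] {N : ℕ}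

/-- the matrix over `K` -/
def mk (A : Matrix (Fin N) (Fin N) k) : Matrix (Fin N) (Fin N) K := A.map (algebraMap k K)

variable (k) in
/-- the linear relations over the constants between the coordinates -/
def Lk (x : Fin N → K) : Set (Fin N → k) := {p | ∑ i, algebraMap k K (p i) * x i = 0}

variable (k) in
/-- the proportionality relations -/
def Rl (x : Fin N → K) : Set (Fin N × Fin N × k) :=
  {p | x p.1 = algebraMap k K p.2.2 * x p.2.1}

theorem Rl_of_Lk {x z : Fin N → K} (h : Lk k x = Lk k z) {i j : Fin N} {c : k}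
    (hc : x i = algebraMap k K c * x j) : z i = algebraMap k K c * z j := by
  classical
  have h1 : ∀ w : Fin N → K, ∑ a, algebraMap k K ((Pi.single i 1 - c • Pi.single j 1 :
      Fin N → k) a) * w a = w i - algebraMap k K c * w j := by
    intro w
    simp only [Pi.sub_apply, Pi.smul_apply, smul_eq_mul, map_sub, map_mul, sub_mul,
      Finset.sum_sub_distrib]
    congr 1
    · rw [Finset.sum_eq_single i]
      · rw [Pi.single_eq_same, map_one, one_mul]
      · intro b _ hb
        rw [Pi.single_eq_of_ne hb, map_zero, zero_mul]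
      · intro h
        exact absurd (Finset.mem_univ i) h
    · rw [Finset.sum_eq_single j]
      · rw [Pi.single_eq_same, map_one, mul_one]
      · intro b _ hb
        rw [Pi.single_eq_of_ne hb, map_zero, mul_zero, zero_mul]
      · intro h
        exact absurd (Finset.mem_univ j) h
  have h2 : (Pi.single i 1 - c • Pi.single j 1 : Fin N → k) ∈ Lk k x := by
    change ∑ a, _ = 0
    rw [h1, hc, sub_self]
  rw [h] at h2
  have h3 : ∑ a, algebraMap k K ((Pi.single i 1 - c • Pi.single j 1 :
      Fin N → k) a) * z a = 0 := h2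
  rw [h1] at h3
  exact sub_eq_zero.1 h3

/-- a coordinate that is not proportional to any other one -/
def Sg (k : Type) [Field k] [Algebra k K] (x : Fin N → K) (l : Fin N) : Prop :=
  x l ≠ 0 ∧ ∀ j, j ≠ l → x j ≠ 0 → ∀ c : k, x l ≠ algebraMap k K c * x j

open Classical in
/-- the lines spanned by the nonzero coordinates -/
noncomputable def cls (k : Type) [Field k] [Algebra k K] (x : Fin N → K) :
    Finset (Submodule k K) :=
  (Finset.univ.filter fun i => x i ≠ 0).image fun i => Submodule.span k {x i}

theorem card_cls (x : Fin N → K) : (cls k x).card ≤ N := by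
  classical
  refine Finset.card_image_le.trans ((Finset.card_le_univ _).trans ?_)
  rw [Fintype.card_fin]

theorem exists_sg {x : Fin N → K} (h : N < 2 * (cls k x).card) : ∃ l, Sg k x l := by
  classical
  by_contra hcon
  push Not at hcon
  apply absurd h
  rw [not_lt]
  have h1 : 2 * (cls k x).card ≤ (Finset.univ.filter fun i => x i ≠ 0).card := by
    unfold cls
    refine Finset.mul_card_image_le_card _ 2 fun L hL => ?_
    obtain ⟨i, hi, rfl⟩ := Finset.mem_image.1 hL
    have hi0 := (Finset.mem_filter.1 hi).2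
    have h2 := hcon i
    unfold Sg at h2
    push Not at h2
    obtain ⟨j, hji, hj0, c, hc⟩ := h2 hi0
    have hc0 : c ≠ 0 := by
      rintro rfl
      rw [map_zero, zero_mul] at hc
      exact hi0 hc
    refine Finset.one_lt_card.2 ⟨i, ?_, j, ?_, hji.symm⟩
    · rw [Finset.mem_filter]
      exact ⟨hi, rfl⟩
    · rw [Finset.mem_filter, Finset.mem_filter]
      refine ⟨⟨Finset.mem_univ _, hj0⟩, ?_⟩
      rw [hc, ← Algebra.smul_def]
      exact (Submodule.span_singleton_smul_eq (Ne.isUnit hc0) (x j)).symm
  refine h1.trans ((Finset.card_le_univ _).trans ?_)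
  rw [Fintype.card_fin]

variable [CharZero k] [IsFF k K] [IsAlgClosed k]

theorem hgt_mk (A : Matrix (Fin N) (Fin N) k) (i j : Fin N) :
    hgt k ((mk A : Matrix (Fin N) (Fin N) K) i j) = 0 :=
  Pool.Agent.TH710.NU.hgt_alg _

theorem lin_pull_k {d : ℕ} (A : Matrix (Fin N) (Fin N) k) (y : Fin N → K) (p : Fin N → k) :
    ∑ i, algebraMap k K (p i) * step d (mk A) y i =
      ∑ j, algebraMap k K (Matrix.vecMul p A j) * y j ^ d := by
  rw [lin_pull]
  refine Finset.sum_congr rfl fun j _ => ?_
  congr 1
  unfold Matrix.vecMul dotProduct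
  rw [map_sum]
  exact Finset.sum_congr rfl fun i _ => by rw [map_mul]; rfl

theorem hgt_sum_k (q : Fin N → k) : ∑ j, hgt k (algebraMap k K (q j)) = 0 :=
  Finset.sum_eq_zero fun _ _ => Pool.Agent.TH710.NU.hgt_alg _

/-- **Growth.** -/
theorem gap_step {d : ℕ} (hd0 : 0 < d) (hd : 2 * (N - 1) ^ 2 ≤ d) {B B' : ℤ}
    (A : Matrix (Fin N) (Fin N) k) (hB'0 : 0 ≤ B')
    (hB : gc N * (max (canDeg k K) 0 + N * B') < d * (B + 1)) {y : Fin N → K}
    (hy : Gap k B y) : Gap k B' (step d (mk A) y) := by
  intro i j hi hj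
  by_cases hr : hgt k (step d (mk A) y i / step d (mk A) y j) ≤ B'
  · left
    set lam : K := step d (mk A) y i / step d (mk A) y j with hlam
    have h0 : ∑ l, (mk A i l - lam * mk A j l) * y l ^ d = 0 := by
      have h1 : step d (mk A) y i - lam * step d (mk A) y j = 0 := by
        rw [hlam, div_mul_cancel₀ _ hj, sub_self]
      rw [← h1]
      unfold step
      rw [Finset.mul_sum, ← Finset.sum_sub_distrib]
      exact Finset.sum_congr rfl fun l _ => by ring
    have hh : ∑ l, hgt k (mk A i l - lam * mk A j l) ≤ N * B' := by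
      have h3 : ∑ l : Fin N, hgt k (mk A i l - lam * mk A j l) ≤ ∑ _l : Fin N, B' := by
        refine Finset.sum_le_sum fun l _ => ?_
        rw [sub_eq_add_neg]
        refine (hgt_add_le _ _).trans ?_
        have h5 : hgt k (-(lam * mk A j l)) = hgt k (lam * mk A j l) :=
          hgt_congr fun P => P.ord_neg _
        have h6 := hgt_mul_le (k := k) lam (mk A j l)
        rw [h5]
        have h7 := hgt_mk (k := k) (K := K) A i l
        have h8 := hgt_mk (k := k) (K := K) A j l
        linarith
      rwa [Finset.sum_const, Finset.card_univ, Fintype.card_fin, nsmul_eq_mul] at h3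
    obtain ⟨φ, hφ⟩ := LinearMap.exists_leftInverse_of_injective (Algebra.linearMap k K)
      (LinearMap.ker_eq_bot.2 (algebraMap k K).injective)
    have hφ1 : ∀ c : k, φ (algebraMap k K c) = c := fun c => LinearMap.congr_fun hφ c
    have h1 := funct_sum hd0 hd hy _ h0 (lt_of_le_of_lt (mul_le_mul_of_nonneg_left
      (by linarith) (by linarith [gc_pos N])) hB) φ
    refine ⟨φ lam, ?_⟩
    have h2 : ∀ l, φ (mk A i l - lam * mk A j l) = A i l - φ lam * A j l := by
      intro l
      have h3 : lam * mk A j l = A j l • lam := by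
        rw [Algebra.smul_def, mul_comm]
        rfl
      rw [map_sub, h3, map_smul, smul_eq_mul, mul_comm]
      congr 1
      exact hφ1 (A i l)
    simp only [h2, map_sub, map_mul, sub_mul, Finset.sum_sub_distrib] at h1
    have h3 := sub_eq_zero.1 h1
    change ∑ l, algebraMap k K (A i l) * y l ^ d = _
    rw [h3]
    unfold step
    rw [Finset.mul_sum]
    exact Finset.sum_congr rfl fun l _ => by rw [mul_assoc]; rfl
  · right
    exact not_le.1 hr

theorem gap_orbit {d : ℕ} (hN : 0 < N) (hd : 4 * N ^ 3 ≤ d)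
    (A : Matrix (Fin N) (Fin N) k) {B : ℤ} (hB : max (canDeg k K) 0 ≤ B) {y : Fin N → K}
    (hy : Gap k B y) (m : ℕ) : Gap k (B + m) ((step d (mk A))^[m] y) := by
  obtain ⟨hd0, hd1, -⟩ := four_cube hN hd
  have hc := le_max_right (canDeg k K) 0
  induction m with
  | zero => simpa using hy
  | succ m ih =>
    rw [Function.iterate_succ_apply']
    refine gap_step (k := k) hd0 hd1 A (by push_cast; linarith) ?_ ih
    have h1 := bound_step (B := B + m) (B' := B + (m + 1 : ℕ)) hN hd hc le_rfl
      (add_zero (max (canDeg k K) 0)).symm (by linarith) (by push_cast; linarith)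
      (by push_cast; linarith)
    rwa [add_zero] at h1

/-- the bound for relations over the constants -/
theorem small_k {d : ℕ} (hN : 0 < N) (hd : 4 * N ^ 3 ≤ d) {B : ℤ}
    (hB : max (canDeg k K) 0 ≤ B) (q : Fin N → k) :
    gc N * (max (canDeg k K) 0 + ∑ j, hgt k (algebraMap k K (q j))) < d * (B + 1) := by
  rw [hgt_sum_k, add_zero]
  have hc := le_max_right (canDeg k K) 0
  have h1 := bound_step (B := B) (B' := 0) hN hd hc le_rfl
    (add_zero (max (canDeg k K) 0)).symm hB (by linarith) le_rfl
  rwa [add_zero, mul_zero, add_zero] at h1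

theorem Lk_step {d : ℕ} (hN : 0 < N) (hd : 4 * N ^ 3 ≤ d)
    (A : Matrix (Fin N) (Fin N) k) {B : ℤ} (hB : max (canDeg k K) 0 ≤ B) {y z : Fin N → K}
    (hy : Gap k B y) (hz : ∀ i j (c : k), y i = algebraMap k K c * y j →
      z i = algebraMap k K c * z j) : Lk k (step d (mk A) y) ⊆ Lk k (step d (mk A) z) := by
  obtain ⟨hd0, hd1, -⟩ := four_cube hN hd
  intro p hp
  have hp' : ∑ i, algebraMap k K (p i) * step d (mk A) y i = 0 := hp
  change ∑ i, algebraMap k K (p i) * step d (mk A) z i = 0
  rw [lin_pull_k] at hp' ⊢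
  exact compat_sum hd0 hd1 hy _ hp' (small_k hN hd hB _) hz

theorem Lk_step_eq {d : ℕ} (hN : 0 < N) (hd : 4 * N ^ 3 ≤ d)
    (A : Matrix (Fin N) (Fin N) k) {B : ℤ} (hB : max (canDeg k K) 0 ≤ B) {y z : Fin N → K}
    (hy : Gap k B y) (hz : Gap k B z) (h : Rl k y = Rl k z) :
    Lk k (step d (mk A) y) = Lk k (step d (mk A) z) := by
  have h1 : ∀ i j (c : k), y i = algebraMap k K c * y j ↔ z i = algebraMap k K c * z j := by
    intro i j c
    have : (i, j, c) ∈ Rl k y ↔ (i, j, c) ∈ Rl k z := by rw [h]
    exact this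
  exact Set.Subset.antisymm (Lk_step hN hd A hB hy fun i j c => (h1 i j c).1)
    (Lk_step hN hd A hB hz fun i j c => (h1 i j c).2)

theorem Rl_eq_of_Lk {y z : Fin N → K} (h : Lk k y = Lk k z) : Rl k y = Rl k z := by
  ext ⟨i, j, c⟩
  exact ⟨fun h1 => Rl_of_Lk h h1, fun h1 => Rl_of_Lk h.symm h1⟩

/-- the coefficient of a coordinate that is not proportional to any other one -/
theorem sg_zero {d : ℕ} (hN : 0 < N) (hd : 4 * N ^ 3 ≤ d) {B : ℤ}
    (hB : max (canDeg k K) 0 ≤ B) {y : Fin N → K} (hy : Gap k B y) {l : Fin N} (hl : Sg k y l)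
    (q : Fin N → k) (hq : ∑ j, algebraMap k K (q j) * y j ^ d = 0) : q l = 0 := by
  obtain ⟨hd0, hd1, -⟩ := four_cube hN hd
  have h1 := coef_zero (k := k) (s := N) (by rw [Fintype.card_fin]) hd0 hd1
    (fun j => algebraMap k K (q j)) y hq l hl.1 (fun j hj hj0 => by
      have h2 := (hy l j hl.1 hj0).resolve_left fun ⟨c, hc⟩ => hl.2 j hj hj0 c hc
      refine (small_k hN hd hB q).trans_le ?_
      exact mul_le_mul_of_nonneg_left (by linarith) (by positivity))
  exact (map_eq_zero _).1 h1

theorem sg_step {d : ℕ} (hN : 0 < N) (hd : 4 * N ^ 3 ≤ d) {B : ℤ}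
    (hB : max (canDeg k K) 0 ≤ B) {y : Fin N → K} (hy : Gap k B y) {l : Fin N} (hl : Sg k y l)
    (A : Matrix (Fin N) (Fin N) k) {i j : Fin N} {c : k}
    (h : step d (mk A) y i = algebraMap k K c * step d (mk A) y j) : A i l = c * A j l := by
  have h1 := sg_zero hN hd hB hy hl (fun l => A i l - c * A j l) (by
    have h2 : step d (mk A) y i - algebraMap k K c * step d (mk A) y j = 0 := by
      rw [h, sub_self]
    rw [← h2]
    unfold step
    rw [Finset.mul_sum, ← Finset.sum_sub_distrib]
    exact Finset.sum_congr rfl fun l _ => by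
      rw [map_sub, map_mul, sub_mul, mul_assoc]
      rfl)
  exact sub_eq_zero.1 h1

/-- the proportionality relations after a step -/
theorem Rl_step {d : ℕ} (hN : 0 < N) (hd : 4 * N ^ 3 ≤ d) {B : ℤ}
    (hB : max (canDeg k K) 0 ≤ B) {y : Fin N → K} (hy : Gap k B y) {l : Fin N} (hl : Sg k y l)
    {A : Matrix (Fin N) (Fin N) k} (hA : ∀ i j, A i j ≠ 0) :
    Rl k (step d (mk A) y) = {p | (∃ c : k, step d (mk A) y p.1 =
      algebraMap k K c * step d (mk A) y p.2.1) ∧ A p.1 l = p.2.2 * A p.2.1 l} := by
  ext ⟨i, j, c⟩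
  constructor
  · intro h
    exact ⟨⟨c, h⟩, sg_step hN hd hB hy hl A h⟩
  · rintro ⟨⟨c', hc'⟩, h⟩
    have h1 := sg_step hN hd hB hy hl A hc'
    have h2 : c = c' := mul_right_cancel₀ (hA j l) (h.symm.trans h1)
    change step d (mk A) y i = algebraMap k K c * step d (mk A) y j
    rw [h2]
    exact hc'

/-- **The number of the classes does not decrease.** -/
theorem cls_step {d : ℕ} (hN : 0 < N) (hd : 4 * N ^ 3 ≤ d) {B : ℤ}
    (hB : max (canDeg k K) 0 ≤ B) {y : Fin N → K} (hy : Gap k B y)
    {A : Matrix (Fin N) (Fin N) k} (hA : A.det ≠ 0) :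
    (cls k y).card ≤ (cls k (step d (mk A) y)).card := by
  classical
  obtain ⟨hd0, hd1, -⟩ := four_cube hN hd
  have hrep : ∀ (x : Fin N → K) (L : Submodule k K), L ∈ cls k x →
      ∃ i, x i ≠ 0 ∧ Submodule.span k {x i} = L := by
    intro x L hL
    obtain ⟨i, hi, h⟩ := Finset.mem_image.1 hL
    exact ⟨i, (Finset.mem_filter.1 hi).2, h⟩
  have hne : Nonempty (Fin N) := ⟨⟨0, hN⟩⟩
  choose! ix hx0 hxL using hrep
  -- the powers of the representatives are independent
  have hind : LinearIndependent k (fun L : cls k y => y (ix y L.1) ^ d) := by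
    rw [Fintype.linearIndependent_iff]
    intro a ha L
    have h1 := coef_zero (k := k) (s := N) (J := cls k y) (by
        rw [Fintype.card_coe]
        exact card_cls y) hd0 hd1 (fun L => algebraMap k K (a L)) (fun L => y (ix y L.1)) (by
      simpa only [Algebra.smul_def] using ha) L (hx0 y L.1 L.2) (by
      intro L' hL' _
      have h2 := (hy (ix y L.1) (ix y L'.1) (hx0 y _ L.2) (hx0 y _ L'.2)).resolve_left (by
        rintro ⟨c, hc⟩
        have hc0 : c ≠ 0 := by
          rintro rfl
          rw [map_zero, zero_mul] at hc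
          exact hx0 y _ L.2 hc
        apply hL'
        apply Subtype.ext
        rw [← hxL y _ L.2, ← hxL y _ L'.2, hc, ← Algebra.smul_def]
        exact (Submodule.span_singleton_smul_eq (Ne.isUnit hc0) _).symm)
      have h3 := small_k (K := K) hN hd hB (fun _ => (0 : k))
      have h4 : ∑ L : cls k y, hgt k (algebraMap k K (a L)) = 0 :=
        Finset.sum_eq_zero fun _ _ => Pool.Agent.TH710.NU.hgt_alg _
      rw [h4]
      rw [hgt_sum_k] at h3
      refine h3.trans_le ?_
      exact mul_le_mul_of_nonneg_left (by linarith) (by positivity))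
    exact (map_eq_zero _).1 h1
  set x' := step d (mk A) y with hx'
  let W : Finset K := (cls k x').image fun L => x' (ix x' L)
  have hW : ∀ j, x' j ∈ Submodule.span k (W : Set K) := by
    intro j
    by_cases hj : x' j = 0
    · rw [hj]
      exact zero_mem _
    · have h1 : Submodule.span k {x' j} ∈ cls k x' :=
        Finset.mem_image.2 ⟨j, Finset.mem_filter.2 ⟨Finset.mem_univ _, hj⟩, rfl⟩
      have h2 := hxL x' _ h1
      have h3 : x' j ∈ Submodule.span k {x' (ix x' (Submodule.span k {x' j}))} := by
        rw [h2]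
        exact Submodule.mem_span_singleton_self _
      refine Submodule.span_mono ?_ h3
      rw [Set.singleton_subset_iff, Finset.mem_coe]
      exact Finset.mem_image_of_mem _ h1
  have hinv : ∀ l, y l ^ d ∈ Submodule.span k (W : Set K) := by
    intro l
    have h1 : y l ^ d = ∑ i, A⁻¹ l i • x' i := by
      have h2 : (mk A⁻¹ : Matrix (Fin N) (Fin N) K).mulVec x' = fun j => y j ^ d := by
        have h3 : x' = (mk A : Matrix (Fin N) (Fin N) K).mulVec fun j => y j ^ d := rfl
        have h4 : (mk A⁻¹ : Matrix (Fin N) (Fin N) K) * mk A = 1 := by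
          unfold mk
          rw [← Matrix.map_mul, Matrix.nonsing_inv_mul A (Ne.isUnit hA), Matrix.map_one _
            (map_zero _) (map_one _)]
        rw [h3, Matrix.mulVec_mulVec, h4, Matrix.one_mulVec]
      have h3 := congrFun h2 l
      rw [← h3]
      unfold Matrix.mulVec dotProduct
      exact Finset.sum_congr rfl fun i _ => by
        rw [Algebra.smul_def]
        rfl
    rw [h1]
    exact Submodule.sum_mem _ fun i _ => Submodule.smul_mem _ _ (hW i)
  have h1 := linearIndependent_le_span' _ hind (W : Set K) (by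
    rintro _ ⟨L, rfl⟩
    exact hinv _)
  rw [Cardinal.mk_fintype, Fintype.card_coe, Nat.cast_le] at h1
  refine h1.trans ?_
  have h2 : Fintype.card ((W : Finset K) : Set K) = W.card := by
    rw [← Fintype.card_coe]
    exact Fintype.card_congr (Equiv.refl _)
  rw [h2]
  exact Finset.card_image_le

end Pool.Agent.TH710.DY
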