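import Pool.Agent.TH710.DY.Iso

/-!
Orbits of linear images of power maps over the constants and varieties given by nested sums of few
high powers of linear forms: the return sets are eventually periodic.
-/

set_option autoImplicit false

open FF Filter MvPolynomial Pool.Agent.W603.LV Pool.Agent.W603.CZ Pool.Agent.TH710.ND
  Pool.Agent.TH710.NU

namespace Pool.Agent.TH710.DY

variable {k K : Type} [Field k] [Field K] [Algebra k K]

/-- If all coordinates of the coefficients give relations, so do the coefficients. -/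
theorem expand {N : ℕ} (r x : Fin N → K)
    (h : ∀ φ : K →ₗ[k] k, (fun i => φ (r i)) ∈ Lk k x) : ∑ i, r i * x i = 0 := by
  classical
  let bs := Module.Basis.ofVectorSpace k K
  let I := Finset.univ.biUnion fun i => (bs.repr (r i)).support
  have h1 : ∀ i, r i = ∑ b ∈ I, bs.repr (r i) b • bs b := by
    intro i
    have h2 := bs.linearCombination_repr (r i)
    rw [Finsupp.linearCombination_apply, Finsupp.sum_of_support_subset (s := I)] at h2
    · exact h2.symm
    · intro b hb
      exact Finset.mem_biUnion.2 ⟨i, Finset.mem_univ i, hb⟩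
    · intro b _
      exact zero_smul _ _
  have h2 : ∑ i, r i * x i = ∑ b ∈ I, bs b * ∑ i, algebraMap k K (bs.coord b (r i)) * x i := by
    calc ∑ i, r i * x i = ∑ i, ∑ b ∈ I, (bs.repr (r i) b • bs b) * x i := by
          refine Finset.sum_congr rfl fun i _ => ?_
          rw [← Finset.sum_mul, ← h1 i]
      _ = ∑ b ∈ I, ∑ i, (bs.repr (r i) b • bs b) * x i := Finset.sum_comm
      _ = _ := by
          refine Finset.sum_congr rfl fun b _ => ?_
          rw [Finset.mul_sum]
          refine Finset.sum_congr rfl fun i _ => ?_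
          rw [Algebra.smul_def]
          change _ = bs b * (algebraMap k K (bs.repr (r i) b) * x i)
          ring
  rw [h2]
  refine Finset.sum_eq_zero fun b _ => ?_
  have h3 : ∑ i, algebraMap k K (bs.coord b (r i)) * x i = 0 := h (bs.coord b)
  rw [h3, mul_zero]

theorem funct_vecMul {N : ℕ} (A : Matrix (Fin N) (Fin N) k) (p : Fin N → K) (φ : K →ₗ[k] k)
    (j : Fin N) : φ (Matrix.vecMul p (mk A) j) = Matrix.vecMul (fun i => φ (p i)) A j := by
  unfold Matrix.vecMul dotProduct
  rw [map_sum]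
  refine Finset.sum_congr rfl fun i _ => ?_
  have h3 : p i * mk A i j = A i j • p i := by
    rw [Algebra.smul_def, mul_comm]
    rfl
  rw [h3, map_smul, smul_eq_mul, mul_comm]

variable [CharZero k] [IsFF k K] [IsAlgClosed k]

theorem leaf_k0 {N d : ℕ} (hN : 0 < N) (hd : 4 * N ^ 3 ≤ d)
    (A : Matrix (Fin N) (Fin N) k) (p : Fin N → K) {B : ℤ} {y : Fin N → K} (hy : Gap k B y)
    (hB : gc N * (max (canDeg k K) 0 + ∑ j, hgt k (Matrix.vecMul p (mk A) j)) < d * (B + 1))
    (h0 : ∑ i, p i * step d (mk A) y i = 0) (φ : K →ₗ[k] k) :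
    (fun i => φ (p i)) ∈ Lk k (step d (mk A) y) := by
  obtain ⟨hd0, hd1, -⟩ := four_cube hN hd
  change ∑ i, algebraMap k K (φ (p i)) * step d (mk A) y i = 0
  rw [lin_pull_k]
  rw [lin_pull] at h0
  have h1 := funct_sum hd0 hd1 hy _ h0 hB φ
  rw [← h1]
  exact Finset.sum_congr rfl fun j _ => by rw [funct_vecMul]

theorem leaf_k {N d : ℕ} (hN : 0 < N) (hd : 4 * N ^ 3 ≤ d)
    (A : Matrix (Fin N) (Fin N) k) (p : Fin N → K) :
    ∃ B0 : ℕ, ∀ (B : ℤ) (y : Fin N → K), B0 ≤ B → Gap k B y →
      ∑ i, p i * step d (mk A) y i = 0 → ∀ φ : K →ₗ[k] k,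
      (fun i => φ (p i)) ∈ Lk k (step d (mk A) y) := by
  obtain ⟨hd0, hd1, -⟩ := four_cube hN hd
  refine ⟨(gc N * (max (canDeg k K) 0 + ∑ j, hgt k (Matrix.vecMul p (mk A) j))).toNat, ?_⟩
  intro B y hB hy h0 φ
  refine leaf_k0 hN hd A p hy ?_ h0 φ
  have h1 := Int.self_le_toNat
    (gc N * (max (canDeg k K) 0 + ∑ j, hgt k (Matrix.vecMul p (mk A) j)))
  have h2 : (1 : ℤ) ≤ d := by exact_mod_cast hd0
  nlinarith

theorem leaf_kp {N d : ℕ} (hN : 0 < N) (hd : 4 * N ^ 3 ≤ d)
    (A : Matrix (Fin N) (Fin N) k) (p q : Fin N → K) (b : ℕ) :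
    ∃ B0 : ℕ, ∀ (B : ℤ) (y : Fin N → K), B0 ≤ B → Gap k B y →
      ∑ i, q i * step d (mk A) y i ≠ 0 →
      hgt k ((∑ i, p i * step d (mk A) y i) / ∑ i, q i * step d (mk A) y i) ≤ b →
      ∀ φ : K →ₗ[k] k, (fun i => φ (p i - (∑ i, p i * step d (mk A) y i) /
        (∑ i, q i * step d (mk A) y i) * q i)) ∈ Lk k (step d (mk A) y) := by
  obtain ⟨hd0, hd1, -⟩ := four_cube hN hd
  refine ⟨(gc N * (max (canDeg k K) 0 + ∑ j, (hgt k (Matrix.vecMul p (mk A) j) +
    (b + hgt k (Matrix.vecMul q (mk A) j))))).toNat, ?_⟩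
  intro B y hB hy hq hr φ
  set lam := (∑ i, p i * step d (mk A) y i) / ∑ i, q i * step d (mk A) y i with hlam
  have h0 : ∑ i, (p i - lam * q i) * step d (mk A) y i = 0 := by
    have h1 : ∑ i, p i * step d (mk A) y i - lam * ∑ i, q i * step d (mk A) y i = 0 := by
      rw [hlam, div_mul_cancel₀ _ hq, sub_self]
    rw [← h1, Finset.mul_sum, ← Finset.sum_sub_distrib]
    exact Finset.sum_congr rfl fun l _ => by ring
  have hv : ∀ j, Matrix.vecMul (fun i => p i - lam * q i) (mk A) j =
      Matrix.vecMul p (mk A) j + -(lam * Matrix.vecMul q (mk A) j) := by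
    intro j
    unfold Matrix.vecMul dotProduct
    rw [Finset.mul_sum, ← Finset.sum_neg_distrib, ← Finset.sum_add_distrib]
    exact Finset.sum_congr rfl fun i _ => by ring
  refine leaf_k0 hN hd A (fun i => p i - lam * q i) hy ?_ h0 φ
  have h1 := Int.self_le_toNat (gc N * (max (canDeg k K) 0 +
    ∑ j, (hgt k (Matrix.vecMul p (mk A) j) + (b + hgt k (Matrix.vecMul q (mk A) j)))))
  have h2 : (1 : ℤ) ≤ d := by exact_mod_cast hd0
  have h3 : ∑ j, hgt k (Matrix.vecMul (fun i => p i - lam * q i) (mk A) j) ≤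
      ∑ j, (hgt k (Matrix.vecMul p (mk A) j) + (b + hgt k (Matrix.vecMul q (mk A) j))) := by
    refine Finset.sum_le_sum fun j _ => ?_
    rw [hv]
    refine (Pool.Agent.W603.CY.hgt_add_le _ _).trans ?_
    have h5 : hgt k (-(lam * Matrix.vecMul q (mk A) j)) = hgt k (lam * Matrix.vecMul q (mk A) j) :=
      hgt_congr fun P => P.ord_neg _
    rw [h5]
    have h6 := Pool.Agent.W603.CY.hgt_mul_le (k := k) lam (Matrix.vecMul q (mk A) j)
    linarith
  have h4 := mul_le_mul_of_nonneg_left (add_le_add_right h3 (max (canDeg k K) 0))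
    (by linarith [gc_pos N] : (0 : ℤ) ≤ gc N)
  nlinarith

/-- **Nested sums of few high powers of linear forms** that vanish at infinitely many points of an
orbit with given linear relations vanish at all points with these relations. -/
theorem tower_target {n d : ℕ} (hd : 4 * (n + 1) ^ 3 ≤ d)
    (A : Matrix (Fin (n + 1)) (Fin (n + 1)) k) (y : ℕ → Fin (n + 1) → K)
    (hy : ∀ i : ℕ, Gap k (i : ℤ) (y i)) (z : Fin (n + 1) → K)
    (hz : ∀ i, Lk k (step d (mk A) (y i)) ⊆ Lk k z) {F : MvPolynomial (Fin (n + 1)) K}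
    (hF : Tower F) (h0 : ∀ i, aeval (step d (mk A) (y i)) F = 0) : aeval z F = 0 := by
  classical
  have hFc : ∀ c : K, ∃ B : ℕ, ∀ i : ℕ, hgt k (algebraMap K K c) ≤ B * (fun _ : ℕ => (1 : ℤ)) i := by
    intro c
    refine ⟨(hgt k c).toNat, fun i => ?_⟩
    have := Int.self_le_toNat (hgt k c)
    simpa using this
  obtain ⟨E, hE⟩ : ∃ E : IntermediateField K (UL (hyperfilter ℕ) (fun _ : ℕ => K)),
      IsSmall (hyperfilter ℕ) k (fun _ : ℕ => (1 : ℤ)) E :=
    ⟨small (hyperfilter ℕ) (fun _ : ℕ => (1 : ℤ)) (fun _ => zero_le_one) hFc,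
      fun _ => zero_le_one, fun a => mem_small (hyperfilter ℕ)⟩
  have hS : ∀ᶠ i in (hyperfilter ℕ : Filter ℕ),
      max (canDeg k K + ((fun _ : ℕ => (∅ : Finset (Place k K))) i).card) 0 ≤
        ((max (canDeg k K) 0).toNat : ℕ) * (fun _ : ℕ => (1 : ℤ)) i := by
    refine Eventually.of_forall fun i => ?_
    have := Int.self_le_toNat (max (canDeg k K) 0)
    simpa using this
  have hdsys := dsys (L := fun _ : ℕ => K) (F := K) (fun _ : ℕ => (∅ : Finset (Place k K))) hE hS
  set yU : Fin (n + 1) → UL (hyperfilter ℕ) (fun _ : ℕ => K) :=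
    fun t => um (hyperfilter ℕ) (fun i => step d (mk A) (y i) t) with hyU
  have hlin : ∀ a : Fin (n + 1) → K, aeval yU (∑ j, C (a j) * X j : MvPolynomial (Fin (n + 1)) K) =
      um (hyperfilter ℕ) (fun i => ∑ t, a t * step d (mk A) (y i) t) := by
    intro a
    have h1 := um_aeval (𝒰 := hyperfilter ℕ) (L := fun _ : ℕ => K)
      (fun t i => step d (mk A) (y i) t)
      (∑ j, C (a j) * X j : MvPolynomial (Fin (n + 1)) K)
    rw [← h1]
    congr 1
    funext i
    simp [map_sum]
  have hlinz : ∀ a : Fin (n + 1) → K, aeval (fun t => algebraMap K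
      (UL (hyperfilter ℕ) (fun _ : ℕ => K)) (z t))
      (∑ j, C (a j) * X j : MvPolynomial (Fin (n + 1)) K) =
      um (hyperfilter ℕ) (fun _ => ∑ t, a t * z t) := by
    intro a
    have h1 : um (hyperfilter ℕ) (fun _ : ℕ => ∑ t, a t * z t) =
        algebraMap K (UL (hyperfilter ℕ) (fun _ : ℕ => K)) (∑ t, a t * z t) := rfl
    rw [h1, map_sum, map_sum]
    exact Finset.sum_congr rfl fun j _ => by rw [map_mul, map_mul, aeval_C, aeval_X]
  have hlarge : ∀ B : ℕ, ∀ᶠ i in (hyperfilter ℕ : Filter ℕ), B ≤ i := fun B =>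
    Nat.hyperfilter_le_atTop (eventually_ge_atTop _)
  have henv : Env E IsLin yU (fun t => algebraMap K
      (UL (hyperfilter ℕ) (fun _ : ℕ => K)) (z t)) := by
    constructor
    · rintro _ ⟨a, rfl⟩ h1
      rw [hlin, um_zero_iff] at h1
      obtain ⟨B0, hB0⟩ := leaf_k (k := k) (Nat.succ_pos n) hd A a
      obtain ⟨i, hi1, hi2⟩ := (h1.and (hlarge B0)).exists
      have h2 := hB0 i (y i) (by exact_mod_cast hi2) (hy i) hi1
      have h3 := expand a z fun φ => hz i (h2 φ)
      rw [hlinz, um_zero_iff]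
      exact Eventually.of_forall fun _ => h3
    · rintro _ _ ⟨a, rfl⟩ ⟨b, rfl⟩ h1 h2 h3
      rw [hlin] at h1 h2 h3
      rw [hlin, ← um_div, hE.2] at h3
      obtain ⟨c, hc⟩ := h3
      obtain ⟨B0, hB0⟩ := leaf_kp (k := k) (Nat.succ_pos n) hd A a b c
      rw [hlinz, hlinz, hlin, hlin, Algebra.algebraMap_self, RingHom.id_apply, RingHom.id_apply,
        ← um_mul, ← um_mul, um_eq]
      filter_upwards [um_ne_iff.1 h2, hc, hlarge B0] with i hi1 hi2 hi3
      have h4 := hB0 i (y i) (by exact_mod_cast hi3) (hy i) hi1 (by simpa using hi2)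
      have h5 := expand (fun t => a t - (∑ t, a t * step d (mk A) (y i) t) /
        (∑ t, b t * step d (mk A) (y i) t) * b t) z fun φ => hz i (h4 φ)
      set lam := (∑ t, a t * step d (mk A) (y i) t) / (∑ t, b t * step d (mk A) (y i) t) with hlam
      have h6 : ∑ t, a t * z t = lam * ∑ t, b t * z t := by
        rw [← sub_eq_zero, ← h5, Finset.mul_sum, ← Finset.sum_sub_distrib]
        exact Finset.sum_congr rfl fun t _ => by ring
      have h7 : ∑ t, a t * step d (mk A) (y i) t = lam * ∑ t, b t * step d (mk A) (y i) t := by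
        rw [hlam, div_mul_cancel₀ _ hi1]
      rw [h6, h7]
      ring
  obtain ⟨s, e, L, c, g, he0, hse, hL, hg, hFe⟩ := hF
  obtain ⟨ihz, ihp⟩ := gate_rel hdsys henv L hL
  have hval : aeval yU F = 0 := by
    rw [hyU, ← um_aeval (𝒰 := hyperfilter ℕ) (L := fun _ : ℕ => K)
      (fun t i => step d (mk A) (y i) t) F, um_zero_iff]
    exact Eventually.of_forall fun i => h0 i
  have h1 := pow_step hdsys (x := fun t => algebraMap K
      (UL (hyperfilter ℕ) (fun _ : ℕ => K)) (z t)) he0
    (fun i => algebraMap K (UL (hyperfilter ℕ) (fun _ : ℕ => K)) (c i))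
    (fun i => E.algebraMap_mem _) g (by
      rw [hFe, aeval_sum_pow] at hval
      exact hval) (by rw [Fintype.card_fin]; exact hse) (fun j hj => ihz (g j) (hg j) hj)
    (fun i j hi hj hl => ihp (g i) (g j) (hg i) (hg j) hi hj hl)
  simp only [Algebra.algebraMap_self, RingHom.id_apply] at h1
  have h2 : aeval (fun t => algebraMap K (UL (hyperfilter ℕ) (fun _ : ℕ => K)) (z t)) F = 0 := by
    rw [hFe, aeval_sum_pow]
    exact h1
  have h3 : aeval (fun t => algebraMap K (UL (hyperfilter ℕ) (fun _ : ℕ => K)) (z t)) F =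
      algebraMap K (UL (hyperfilter ℕ) (fun _ : ℕ => K)) (aeval z F) :=
    aeval_algebraMap_apply _ z F
  rw [h3] at h2
  exact (map_eq_zero _).1 h2

/-- **The linear relations are eventually periodic.** -/
theorem periodic {n d : ℕ} (hd : 4 * (n + 1) ^ 3 ≤ d)
    {A : Matrix (Fin (n + 1)) (Fin (n + 1)) k} (hA : A.det ≠ 0) (hA0 : ∀ i j, A i j ≠ 0)
    {x : Fin (n + 1) → K} (hx : Gap k (max (canDeg k K) 0) x)
    (hc : n + 1 < 2 * (cls k x).card) :
    ∃ a p, 0 < p ∧ ∀ m, a ≤ m → Lk k ((step d (mk A))^[m + p] x) = Lk k ((step d (mk A))^[m] x) := by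
  classical
  have hN : 0 < n + 1 := Nat.succ_pos n
  have hc0 := le_max_right (canDeg k K) 0
  have hgap : ∀ m, Gap k (max (canDeg k K) 0) ((step d (mk A))^[m] x) := by
    intro m i j hi hj
    rcases gap_orbit (k := k) hN hd A le_rfl hx m i j hi hj with h | h
    · exact Or.inl h
    · exact Or.inr (lt_of_le_of_lt (by linarith [(by positivity : (0 : ℤ) ≤ (m : ℤ))]) h)
  have hcls : ∀ m, n + 1 < 2 * (cls k ((step d (mk A))^[m] x)).card := by
    intro m
    induction m with
    | zero => exact hc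
    | succ m ih =>
      rw [Function.iterate_succ_apply']
      have := cls_step hN hd le_rfl (hgap m) hA
      omega
  choose l hl using fun m => exists_sg (hcls m)
  -- the states
  obtain ⟨a, b, hab, h⟩ := Finite.exists_ne_map_eq_of_infinite
    (fun m : ℕ => (l m, ({p | ∃ c : k, (step d (mk A))^[m + 1] x p.1 =
      algebraMap k K c * (step d (mk A))^[m + 1] x p.2} : Set (Fin (n + 1) × Fin (n + 1)))))
  wlog hlt : a < b generalizing a b
  · exact this b a hab.symm h.symm (lt_of_le_of_ne (not_lt.1 hlt) hab.symm)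
  obtain ⟨h1, h2⟩ := Prod.mk.inj h
  have hRl : Rl k ((step d (mk A))^[a + 1] x) = Rl k ((step d (mk A))^[b + 1] x) := by
    rw [Function.iterate_succ_apply', Function.iterate_succ_apply',
      Rl_step hN hd le_rfl (hgap a) (hl a) hA0, Rl_step hN hd le_rfl (hgap b) (hl b) hA0, h1]
    ext ⟨i, j, c⟩
    have h3 : ((i, j) ∈ ({p | ∃ c : k, (step d (mk A))^[a + 1] x p.1 =
      algebraMap k K c * (step d (mk A))^[a + 1] x p.2} : Set (Fin (n + 1) × Fin (n + 1)))) ↔
      ((i, j) ∈ ({p | ∃ c : k, (step d (mk A))^[b + 1] x p.1 =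
      algebraMap k K c * (step d (mk A))^[b + 1] x p.2} : Set (Fin (n + 1) × Fin (n + 1)))) := by
      rw [h2]
    simp only [Set.mem_ofPred_eq, Function.iterate_succ_apply'] at h3 ⊢
    rw [h3]
  have hLk : ∀ j, Lk k ((step d (mk A))^[b + 2 + j] x) = Lk k ((step d (mk A))^[a + 2 + j] x) := by
    intro j
    induction j with
    | zero =>
      change Lk k ((step d (mk A))^[b + 1 + 1] x) = Lk k ((step d (mk A))^[a + 1 + 1] x)
      rw [Function.iterate_succ_apply' _ (b + 1), Function.iterate_succ_apply' _ (a + 1)]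
      exact Lk_step_eq hN hd A le_rfl (hgap _) (hgap _) hRl.symm
    | succ j ih =>
      rw [← add_assoc, ← add_assoc, Function.iterate_succ_apply' _ (b + 2 + j),
        Function.iterate_succ_apply' _ (a + 2 + j)]
      exact Lk_step_eq hN hd A le_rfl (hgap _) (hgap _) (Rl_eq_of_Lk ih)
  refine ⟨a + 2, b - a, by omega, fun m hm => ?_⟩
  have h3 := hLk (m - (a + 2))
  have h4 : b + 2 + (m - (a + 2)) = m + (b - a) := by omega
  have h5 : a + 2 + (m - (a + 2)) = m := by omega
  rwa [h4, h5] at h3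

/-- **Return sets.** -/
theorem return_periodic {n d : ℕ} (hd : 4 * (n + 1) ^ 3 ≤ d)
    {A : Matrix (Fin (n + 1)) (Fin (n + 1)) k} (hA : A.det ≠ 0) (hA0 : ∀ i j, A i j ≠ 0)
    {x : Fin (n + 1) → K} (hx : Gap k (max (canDeg k K) 0) x)
    (hc : n + 1 < 2 * (cls k x).card) (S : Set (MvPolynomial (Fin (n + 1)) K))
    (hS : ∀ F ∈ S, Tower F) :
    IsAP {m | ∀ F ∈ S, aeval ((step d (mk A))^[m] x) F = 0} := by
  classical
  have hN : 0 < n + 1 := Nat.succ_pos n
  have hc0 := le_max_right (canDeg k K) 0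
  obtain ⟨a, p, hp, hper⟩ := periodic (k := k) hd hA hA0 hx hc
  have hper2 : ∀ m, a ≤ m → ∀ j, Lk k ((step d (mk A))^[m + p * j] x) =
      Lk k ((step d (mk A))^[m] x) := by
    intro m hm j
    induction j with
    | zero => rfl
    | succ j ih =>
      rw [mul_add, mul_one, ← add_assoc, hper _ (by omega), ih]
  have hper3 : ∀ m m', a ≤ m → a ≤ m' → m % p = m' % p →
      Lk k ((step d (mk A))^[m] x) = Lk k ((step d (mk A))^[m'] x) := by
    intro m m' hm hm' h
    have key : ∀ m m', a ≤ m → m ≤ m' → m % p = m' % p →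
        Lk k ((step d (mk A))^[m'] x) = Lk k ((step d (mk A))^[m] x) := by
      intro m m' hm hle h
      obtain ⟨j, hj⟩ := (Nat.modEq_iff_dvd' hle).1 h
      have h1 : m' = m + p * j := by omega
      rw [h1]
      exact hper2 m hm j
    rcases le_total m m' with h1 | h1
    · exact (key m m' hm h1 h).symm
    · exact key m' m hm' h1 h.symm
  let P : ℕ → Prop := fun m => ∀ F ∈ S, aeval ((step d (mk A))^[m] x) F = 0
  have hres : ∀ r : ℕ, ∃ (b : ℕ) (Q : Prop), ∀ m, b ≤ m → m % p = r → (P m ↔ Q) := by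
    intro r
    by_cases hfin : {m | m % p = r ∧ P m}.Finite
    · obtain ⟨b, hb⟩ := hfin.bddAbove
      refine ⟨b + 1, False, fun m hm hmr => ?_⟩
      rw [iff_false]
      intro hP
      have := hb ⟨hmr, hP⟩
      omega
    · have hinf : {m | m % p = r ∧ P m}.Infinite := hfin
      refine ⟨a, True, fun m hm hmr => ?_⟩
      rw [iff_true]
      intro F hF
      have h1 : ∀ i : ℕ, ∃ q, i + a + 2 ≤ q ∧ q % p = r ∧ P q := by
        intro i
        obtain ⟨q, ⟨hq1, hq2⟩, hlt⟩ := hinf.exists_gt (i + a + 1)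
        exact ⟨q, hlt, hq1, hq2⟩
      choose φ hφ1 hφ2 hφ3 using h1
      have hsucc : ∀ i, (step d (mk A))^[φ i] x = step d (mk A) ((step d (mk A))^[φ i - 1] x) := by
        intro i
        rw [← Function.iterate_succ_apply' (step d (mk A))]
        have h3 : (φ i - 1).succ = φ i := by have := hφ1 i; omega
        rw [h3]
      refine tower_target (k := k) hd A (fun i => (step d (mk A))^[φ i - 1] x) (fun i => ?_)
        ((step d (mk A))^[m] x) (fun i => ?_) (hS F hF) (fun i => ?_)
      · intro u v hu hv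
        rcases gap_orbit (k := k) hN hd A le_rfl hx (φ i - 1) u v hu hv with h | h
        · exact Or.inl h
        · refine Or.inr (lt_of_le_of_lt ?_ h)
          have h4 : (i : ℤ) ≤ ((φ i - 1 : ℕ) : ℤ) := by
            have := hφ1 i
            omega
          linarith
      · rw [← hsucc]
        refine (hper3 _ _ (by have := hφ1 i; omega) hm ?_).subset
        rw [hφ2, hmr]
      · rw [← hsucc]
        exact hφ3 i F hF
  choose b Q hQ using hres
  have hP : IsAP {m | P m} := by
    refine IsAP.evp (a := (Finset.range p).sup b) hp fun m hm => ?_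
    have h1 : b (m % p) ≤ (Finset.range p).sup b :=
      Finset.le_sup (Finset.mem_range.2 (Nat.mod_lt _ hp))
    rw [hQ (m % p) (m + p) (by omega) (Nat.add_mod_right m p), hQ (m % p) m (by omega) rfl]
  exact hP

end Pool.Agent.TH710.DY
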