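import Pool.Agent.TH710.DY.PD

/-!
Orbits of linear images of power maps over a function field: the monomials of a given degree stay
far from each other, and forms of this degree do not vanish.
-/

set_option autoImplicit false

open FF MvPolynomial Pool.Agent.W603.LV Pool.Agent.W603.CY

namespace Pool.Agent.TH710.DY

variable {k K ρ : Type} [Field k] [Field K] [Algebra k K]

/-- the exponents of the monomials of degree `δ` in `N` variables -/
def mons (N δ : ℕ) : Finset (Fin N →₀ ℕ) := (Finset.univ : Finset (Fin N)).finsuppAntidiag δ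

theorem mem_mons {N δ : ℕ} {κ : Fin N →₀ ℕ} : κ ∈ mons N δ ↔ κ.degree = δ := by
  unfold mons
  rw [Finset.mem_finsuppAntidiag, Finsupp.degree_eq_sum]
  exact ⟨fun h => h.1, fun h => ⟨h, Finset.subset_univ _⟩⟩

/-- the value of a monomial -/
def mv {N : ℕ} (x : Fin N → K) (κ : Fin N →₀ ℕ) : K := ∏ i, x i ^ κ i

theorem mv_ne {N : ℕ} {x : Fin N → K} (hx : ∀ i, x i ≠ 0) (κ : Fin N →₀ ℕ) : mv x κ ≠ 0 :=
  Finset.prod_ne_zero_iff.2 fun i _ => pow_ne_zero _ (hx i)

theorem mv_pow {N d : ℕ} (x : Fin N → K) (κ : Fin N →₀ ℕ) :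
    mv (fun i => x i ^ d) κ = mv x κ ^ d := by
  unfold mv
  rw [← Finset.prod_pow]
  exact Finset.prod_congr rfl fun i _ => by rw [← pow_mul, ← pow_mul, mul_comm]

theorem aeval_mons {N δ : ℕ} {F : MvPolynomial (Fin N) K} (hF : F.IsHomogeneous δ)
    (x : Fin N → K) : aeval x F = ∑ κ ∈ mons N δ, coeff κ F * mv x κ := by
  rw [aeval_def, eval₂_eq']
  refine Finset.sum_subset (fun κ hκ => ?_) fun κ _ hκ => ?_
  · rw [mem_mons]
    by_contra h
    exact mem_support_iff.1 hκ (hF.coeff_eq_zero h)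
  · rw [notMem_support_iff.1 hκ, map_zero, zero_mul]

theorem aeval_step {N d : ℕ} (A : Matrix (Fin N) (Fin N) K) (y : Fin N → K)
    (F : MvPolynomial (Fin N) K) :
    aeval (step d A y) F = aeval (fun j => y j ^ d) (sub A F) := by
  have h : (aeval (fun j => y j ^ d) : MvPolynomial (Fin N) K →ₐ[K] K).comp (sub A) =
      aeval (step d A y) := by
    apply algHom_ext
    intro i
    rw [AlgHom.comp_apply, sub_X, aeval_X, map_sum]
    unfold step
    exact Finset.sum_congr rfl fun j _ => by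
      rw [map_mul, aeval_C, aeval_X]
      rfl
  rw [← h]
  rfl

theorem hom_zero {N δ : ℕ} {F : MvPolynomial (Fin N) K} (hF : F.IsHomogeneous δ)
    (h : ∀ κ ∈ mons N δ, coeff κ F = 0) : F = 0 := by
  ext κ
  rw [coeff_zero]
  by_cases hκ : κ.degree = δ
  · exact h κ (mem_mons.2 hκ)
  · exact hF.coeff_eq_zero hκ

variable (k) in
/-- All coordinates are nonzero and the ratios of two monomials of degree `δ` have height `> B`. -/
def FarM {N : ℕ} (δ : ℕ) (B : ℤ) (x : Fin N → K) : Prop :=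
  (∀ i, x i ≠ 0) ∧ ∀ κ ∈ mons N δ, ∀ κ' ∈ mons N δ, κ ≠ κ' → B < hgt k (mv x κ / mv x κ')

variable [CharZero k] [IsFF k K] [IsAlgClosed k] {r : ρ → K}

/-- **Forms of degree `δ` do not vanish.** -/
theorem form_zero [Fintype ρ] {N d δ s : ℕ} (hs : (mons N δ).card ≤ s) (hd0 : 0 < d)
    (hd : 2 * (s - 1) ^ 2 ≤ d) {A : Matrix (Fin N) (Fin N) K} (hA : A.det ≠ 0)
    (hrA : ∀ i j, PD k r 1 (A i j)) {F : MvPolynomial (Fin N) K} (hF : F.IsHomogeneous δ)
    (hr : PP k r 1 F) {B : ℤ} {y : Fin N → K} (hy : FarM k δ B y)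
    (hB : gc s * (max (canDeg k K) 0 + s * ((δ + 1 : ℕ) * ∑ a, hgt k (r a))) < d * (B + 1))
    (h0 : aeval (step d A y) F = 0) : F = 0 := by
  apply sub_inj hA
  refine hom_zero (sub_hom A hF) fun κ hκ => ?_
  have h1 : ∑ κ : mons N δ, coeff κ.1 (sub A F) * mv y κ.1 ^ d = 0 := by
    rw [← h0, aeval_step, aeval_mons (sub_hom A hF), Finset.sum_coe_sort (mons N δ)
      (fun κ => coeff κ (sub A F) * mv y κ ^ d)]
    exact Finset.sum_congr rfl fun κ _ => by rw [mv_pow]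
  have h2 := sub_PP hF hr hrA
  refine coef_zero (k := k) (J := mons N δ) (s := s) (by rwa [Fintype.card_coe]) hd0 hd
    (fun κ => coeff κ.1 (sub A F)) (fun κ => mv y κ.1) h1 ⟨κ, hκ⟩ (mv_ne hy.1 κ) ?_
  intro κ' hκ' _
  have h3 := hy.2 κ hκ κ'.1 κ'.2 fun h => hκ' (Subtype.ext h.symm)
  have h4 : ∑ κ : mons N δ, hgt k (coeff κ.1 (sub A F)) ≤
      s * ((δ + 1 : ℕ) * ∑ a, hgt k (r a)) := by
    refine (Finset.sum_le_sum fun κ _ => (h2 κ.1).hgt).trans ?_
    rw [Finset.sum_const, nsmul_eq_mul, Finset.card_univ, Fintype.card_coe]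
    exact mul_le_mul_of_nonneg_right (by exact_mod_cast hs)
      (mul_nonneg (by positivity) (Finset.sum_nonneg fun _ _ => hgt_nonneg _))
  have h5 := mul_le_mul_of_nonneg_left (add_le_add_right h4 (max (canDeg k K) 0))
    (by linarith [gc_pos s] : (0 : ℤ) ≤ gc s)
  have h6 : (d : ℤ) * (B + 1) ≤ d * hgt k (mv y κ / mv y κ'.1) :=
    mul_le_mul_of_nonneg_left (by linarith) (by positivity)
  linarith

theorem sum_option {K : Type} [Field K] [Algebra k K] {N : ℕ} (A : Matrix (Fin N) (Fin N) K)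
    (lam : K) : ∑ a : Option (Fin N × Fin N), hgt k (a.elim lam fun p => A p.1 p.2) =
      hgt k lam + msum k A := by
  rw [Fintype.sum_option, Fintype.sum_prod_type]
  rfl

/-- **Growth.** -/
theorem farM_step {N d δ s : ℕ} (hδ : 0 < δ) (hs : (mons N δ).card ≤ s) (hd0 : 0 < d)
    (hd : 2 * (s - 1) ^ 2 ≤ d) {A : Matrix (Fin N) (Fin N) K} (hA : A.det ≠ 0) {B B' : ℤ}
    (hB'0 : 0 ≤ B') {y : Fin N → K} (hy : FarM k δ B y)
    (hB : gc s * (max (canDeg k K) 0 + s * ((δ + 1 : ℕ) * (B' + msum k A))) < d * (B + 1)) :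
    FarM k δ B' (step d A y) := by
  have hg := gc_pos s
  have key : ∀ lam : K, hgt k lam ≤ B' → ∀ F : MvPolynomial (Fin N) K, F.IsHomogeneous δ →
      PP k (fun a : Option (Fin N × Fin N) => a.elim lam fun p => A p.1 p.2) 1 F →
      aeval (step d A y) F = 0 → F = 0 := by
    intro lam hlam F hF hr h0
    refine form_zero (k := k) (r := fun a : Option (Fin N × Fin N) =>
      a.elim lam fun p => A p.1 p.2) hs hd0 hd hA (fun i j => ?_) hF hr hy
      (lt_of_le_of_lt ?_ hB) h0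
    · exact PD.var (k := k) (r := fun a : Option (Fin N × Fin N) =>
        a.elim lam fun p => A p.1 p.2) (some (i, j))
    · rw [sum_option]
      refine mul_le_mul_of_nonneg_left ?_ (by linarith)
      have h1 : (s : ℤ) * ((δ + 1 : ℕ) * (hgt k lam + msum k A)) ≤
          s * ((δ + 1 : ℕ) * (B' + msum k A)) :=
        mul_le_mul_of_nonneg_left (mul_le_mul_of_nonneg_left (by linarith) (by positivity))
          (by positivity)
      linarith
  have h0 : ∀ i, step d A y i ≠ 0 := by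
    intro i hi
    have h1 := key 0 (by rwa [hgt_zero]) (X i ^ δ) (by
      have := (isHomogeneous_X K i).pow δ
      rwa [one_mul] at this) (((PP.X (D := 0) i).pow δ).mono (by omega)) (by
      rw [map_pow, aeval_X, hi, zero_pow hδ.ne'])
    exact pow_ne_zero δ (X_ne_zero (R := K) i) h1
  refine ⟨h0, fun κ hκ κ' hκ' hne => ?_⟩
  by_contra hcon
  push Not at hcon
  set lam : K := mv (step d A y) κ / mv (step d A y) κ' with hlam
  have hm : ∀ κ : Fin N →₀ ℕ, aeval (step d A y) (monomial κ (1 : K)) = mv (step d A y) κ := by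
    intro κ
    rw [aeval_monomial, map_one, one_mul, Finsupp.prod_fintype _ _ fun i => pow_zero _]
    rfl
  have h1 := key lam hcon (monomial κ 1 + -(C lam * monomial κ' 1))
    (((isHomogeneous_monomial 1 (mem_mons.1 hκ))).add (by
      have h2 := (isHomogeneous_C (Fin N) lam).mul (isHomogeneous_monomial (1 : K) (mem_mons.1 hκ'))
      rw [zero_add] at h2
      exact h2.neg))
    ((PP.monomial κ PD.one).add (((PP.C (PD.var (k := k) (r := fun a : Option (Fin N × Fin N) =>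
        a.elim lam fun p => A p.1 p.2) none)).mul (PP.monomial (D := 0) κ' PD.one)).neg)) (by
      rw [map_add, map_neg, map_mul, hm, hm, aeval_C]
      change _ + -(lam * _) = 0
      rw [hlam, div_mul_cancel₀ _ (mv_ne h0 κ')]
      ring)
  have h2 := congrArg (coeff κ) h1
  rw [coeff_add, coeff_neg, coeff_C_mul, coeff_monomial, coeff_monomial, if_pos rfl,
    if_neg hne.symm, mul_zero, neg_zero, add_zero, coeff_zero] at h2
  exact one_ne_zero h2

/-- the constant of the theorem for the monomials -/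
def qc (s δ : ℕ) : ℕ := (2 * s * (s - 1) + 1) * (s * (δ + 1))

theorem gc_eq {s : ℕ} (hs : 0 < s) : gc s = ((2 * s * (s - 1) + 1 : ℕ) : ℤ) := by
  have h1 := two_tri s
  unfold gc
  push_cast [Nat.cast_sub (show 1 ≤ s from hs)]
  linarith

theorem qc_bound {s δ d e : ℕ} (hs : 0 < s) (hd : (e + 1) * qc s δ ≤ d) {B B' g a : ℤ}
    (hg : 0 ≤ g) (ha : 0 ≤ a) (hB'0 : 0 ≤ B') (hB0 : 0 ≤ B)
    (hB : g + a + B' < (e + 1) * (B + 1)) :
    gc s * (g + s * ((δ + 1 : ℕ) * (B' + a))) < d * (B + 1) := by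
  have h1 : (1 : ℤ) ≤ s := by exact_mod_cast hs
  have h2 : (1 : ℤ) ≤ ((δ + 1 : ℕ) : ℤ) := by push_cast; omega
  have h3 : (1 : ℤ) ≤ s * ((δ + 1 : ℕ) : ℤ) := by nlinarith
  have h4 : g + s * ((δ + 1 : ℕ) * (B' + a)) ≤ (s * ((δ + 1 : ℕ) : ℤ)) * (g + a + B') := by
    nlinarith
  have h5 := gc_pos s
  have h6 : gc s * (g + s * ((δ + 1 : ℕ) * (B' + a))) ≤
      gc s * ((s * ((δ + 1 : ℕ) : ℤ)) * (g + a + B')) :=
    mul_le_mul_of_nonneg_left h4 (by linarith)
  have h7 : gc s * (s * ((δ + 1 : ℕ) : ℤ)) = ((qc s δ : ℕ) : ℤ) := by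
    rw [gc_eq hs]
    unfold qc
    push_cast
    ring
  have h8 : (0 : ℤ) < ((qc s δ : ℕ) : ℤ) := by
    rw [← h7]
    nlinarith
  have h9 : gc s * ((s * ((δ + 1 : ℕ) : ℤ)) * (g + a + B')) = ((qc s δ : ℕ) : ℤ) * (g + a + B') := by
    rw [← h7]
    ring
  have h10 : ((qc s δ : ℕ) : ℤ) * (g + a + B') < ((qc s δ : ℕ) : ℤ) * ((e + 1) * (B + 1)) :=
    mul_lt_mul_of_pos_left hB h8
  have h11 : (((e + 1) * qc s δ : ℕ) : ℤ) ≤ d := by exact_mod_cast hd
  have h12 := mul_le_mul_of_nonneg_right h11 (by linarith : (0 : ℤ) ≤ B + 1)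
  push_cast at h12
  have h13 : ((qc s δ : ℕ) : ℤ) * ((e + 1) * (B + 1)) = (((e : ℤ) + 1) * (qc s δ : ℕ)) * (B + 1) := by
    ring
  linarith

theorem qc_two {s δ d e : ℕ} (hs : 0 < s) (hd : (e + 1) * qc s δ ≤ d) :
    0 < d ∧ 2 * (s - 1) ^ 2 ≤ d := by
  have h1 : qc s δ ≤ d := (Nat.le_mul_of_pos_left _ (Nat.succ_pos e)).trans hd
  have h2 : 2 * s * (s - 1) + 1 ≤ qc s δ := Nat.le_mul_of_pos_right _ (Nat.mul_pos hs (Nat.succ_pos δ))
  have h3 : 2 * (s - 1) ^ 2 ≤ 2 * s * (s - 1) := by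
    rw [pow_two, mul_assoc]
    exact Nat.mul_le_mul_left 2 (Nat.mul_le_mul_right _ (Nat.sub_le s 1))
  exact ⟨by omega, by omega⟩

/-- **Orbits.** The matrices may vary, their heights may grow like `e ^ m`. -/
theorem farM_orbit {N d δ s e : ℕ} (hδ : 0 < δ) (hs0 : 0 < s) (hs : (mons N δ).card ≤ s)
    (he : 0 < e) (hd : (e + 1) * qc s δ ≤ d) (A : ℕ → Matrix (Fin N) (Fin N) K)
    (hA : ∀ m, (A m).det ≠ 0) {a : ℤ} (ha0 : 0 ≤ a) (ha : ∀ m, msum k (A m) ≤ a * e ^ m)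
    (x : ℕ → Fin N → K) (hx : ∀ m, x (m + 1) = step d (A m) (x m))
    (hx0 : FarM k δ (max (canDeg k K) 0 + a) (x 0)) (m : ℕ) :
    FarM k δ ((max (canDeg k K) 0 + a) * e ^ m + ((e + 1) ^ m - 1)) (x m) := by
  obtain ⟨hd0, hd1⟩ := qc_two hs0 hd
  have hc := le_max_right (canDeg k K) 0
  set g : ℤ := max (canDeg k K) 0 with hgd
  have he1 : (1 : ℤ) ≤ e := by exact_mod_cast he
  induction m with
  | zero => simpa using hx0
  | succ m ih =>
    rw [hx]
    have h1 : (1 : ℤ) ≤ (e : ℤ) ^ m := one_le_pow₀ he1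
    have h2 : (1 : ℤ) ≤ ((e : ℤ) + 1) ^ m := one_le_pow₀ (by linarith)
    have h3 : (1 : ℤ) ≤ ((e : ℤ) + 1) ^ (m + 1) := one_le_pow₀ (by linarith)
    have h4 : (0 : ℤ) ≤ (e : ℤ) ^ (m + 1) := by positivity
    have h5 : 0 ≤ (g + a) * (e : ℤ) ^ (m + 1) := mul_nonneg (by linarith) h4
    have h6 : 0 ≤ (g + a) * (e : ℤ) ^ m := mul_nonneg (by linarith) (by positivity)
    refine farM_step (k := k) hδ hs hd0 hd1 (hA m) (by linarith) ih ?_
    refine qc_bound hs0 hd hc (msum_nonneg _) (by linarith) (by linarith) ?_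
    have h7 := ha m
    have h8 : (g + a) * (e : ℤ) ^ (m + 1) = e * ((g + a) * (e : ℤ) ^ m) := by ring
    have h9 : ((e : ℤ) + 1) ^ (m + 1) = (e + 1) * ((e : ℤ) + 1) ^ m := by ring
    have h10 : g + a * (e : ℤ) ^ m ≤ (g + a) * (e : ℤ) ^ m := by nlinarith
    rw [h8, h9]
    nlinarith

end Pool.Agent.TH710.DY
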