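import Pool.Agent.TH710.DY.Gate

/-!
Orbits of linear images of power maps over a function field: the coordinates stay far from being
proportional.
-/

set_option autoImplicit false

open FF Pool.Agent.W603.LV Pool.Agent.W603.CY

namespace Pool.Agent.TH710.DY

variable {k K : Type} [Field k] [Field K] [Algebra k K]

/-- the map `A ∘ [d]` -/
def step {N : ℕ} (d : ℕ) (A : Matrix (Fin N) (Fin N) K) (x : Fin N → K) : Fin N → K :=
  fun i => ∑ j, A i j * x j ^ d

variable (k) in
/-- The ratios of all pairs of coordinates have height `> B` (in particular the coordinates are not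
zero). -/
def Far {N : ℕ} (B : ℤ) (x : Fin N → K) : Prop :=
  (∀ i, x i ≠ 0) ∧ ∀ i j, i ≠ j → B < hgt k (x i / x j)

variable (k) in
/-- The ratio of the coordinate `l` and any other nonzero coordinate has height `> B`. -/
def FarAt {N : ℕ} (B : ℤ) (x : Fin N → K) (l : Fin N) : Prop :=
  x l ≠ 0 ∧ ∀ j, j ≠ l → x j ≠ 0 → B < hgt k (x l / x j)

variable (k) in
/-- the sum of the heights of the entries -/
noncomputable def msum {N : ℕ} (A : Matrix (Fin N) (Fin N) K) : ℤ := ∑ i, ∑ j, hgt k (A i j)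

theorem msum_nonneg {N : ℕ} (A : Matrix (Fin N) (Fin N) K) : 0 ≤ msum k A :=
  Finset.sum_nonneg fun _ _ => Finset.sum_nonneg fun _ _ => hgt_nonneg _

theorem two_tri (m : ℕ) : 2 * tri m = m * ((m : ℤ) - 1) := by
  induction m with
  | zero => simp [tri]
  | succ m ih =>
    rw [tri_succ, mul_add, ih]
    push_cast
    ring

variable [CharZero k] [IsFF k K] [IsAlgClosed k]

theorem Far.farAt {N : ℕ} {B : ℤ} {x : Fin N → K} (h : Far k B x) (l : Fin N) : FarAt k B x l :=
  ⟨h.1 l, fun j hj _ => h.2 l j (Ne.symm hj)⟩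

theorem lin_zero {N d : ℕ} (hd0 : 0 < d) (hd : 2 * (N - 1) ^ 2 ≤ d) {B : ℤ} {y : Fin N → K}
    {l : Fin N} (hy : FarAt k B y l) (c : Fin N → K) (hc : ∑ j, c j * y j ^ d = 0)
    (hB : gc N * (max (canDeg k K) 0 + ∑ j, hgt k (c j)) < d * (B + 1)) : c l = 0 := by
  refine coef_zero (k := k) (s := N) (by rw [Fintype.card_fin]) hd0 hd c y hc l hy.1 ?_
  intro j hj hyj
  have h1 := hy.2 j hj hyj
  refine hB.trans_le ?_
  exact mul_le_mul_of_nonneg_left (by linarith) (by positivity)

/-- two rows of a matrix -/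
theorem row_le {N : ℕ} (A : Matrix (Fin N) (Fin N) K) (i : Fin N) :
    ∑ j, hgt k (A i j) ≤ msum k A :=
  Finset.single_le_sum (f := fun i => ∑ j, hgt k (A i j))
    (fun i _ => Finset.sum_nonneg fun _ _ => hgt_nonneg _) (Finset.mem_univ i)

theorem rows_le {N : ℕ} (A : Matrix (Fin N) (Fin N) K) {i j : Fin N} (hij : i ≠ j) :
    ∑ l, hgt k (A i l) + ∑ l, hgt k (A j l) ≤ msum k A := by
  rw [← Finset.sum_pair (f := fun i => ∑ l, hgt k (A i l)) hij]
  exact Finset.sum_le_sum_of_subset_of_nonneg (Finset.subset_univ _)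
    fun i _ _ => Finset.sum_nonneg fun _ _ => hgt_nonneg _

/-- **One step.** Small ratios of two coordinates come from proportional entries. -/
theorem step_ratio {N d : ℕ} (hd0 : 0 < d) (hd : 2 * (N - 1) ^ 2 ≤ d) {B B' : ℤ}
    (A : Matrix (Fin N) (Fin N) K) (hB'0 : 0 ≤ B')
    (hB : gc N * (max (canDeg k K) 0 + msum k A + N * B') < d * (B + 1)) {y : Fin N → K} :
    (∀ i, step d A y i = 0 → ∀ l, FarAt k B y l → A i l = 0) ∧
    (∀ i j, i ≠ j → step d A y j ≠ 0 → hgt k (step d A y i / step d A y j) ≤ B' →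
      ∀ l, FarAt k B y l → A i l = step d A y i / step d A y j * A j l) := by
  have hg := gc_pos N
  have hm := msum_nonneg (k := k) A
  have hc := le_max_right (canDeg k K) 0
  constructor
  · intro i hi l hl
    refine lin_zero hd0 hd hl (fun j => A i j) hi (lt_of_le_of_lt ?_ hB)
    refine mul_le_mul_of_nonneg_left ?_ (by linarith)
    have h1 := row_le (k := k) A i
    have h2 : (0 : ℤ) ≤ N * B' := mul_nonneg (by positivity) hB'0
    linarith
  · intro i j hij hj hr l hl
    set lam : K := step d A y i / step d A y j with hlam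
    have h0 : ∑ l, (A i l - lam * A j l) * y l ^ d = 0 := by
      have h1 : step d A y i - lam * step d A y j = 0 := by
        rw [hlam, div_mul_cancel₀ _ hj, sub_self]
      rw [← h1]
      unfold step
      rw [Finset.mul_sum, ← Finset.sum_sub_distrib]
      exact Finset.sum_congr rfl fun l _ => by ring
    have h2 := lin_zero hd0 hd hl (fun l => A i l - lam * A j l) h0 (lt_of_le_of_lt ?_ hB)
    · exact sub_eq_zero.1 h2
    refine mul_le_mul_of_nonneg_left ?_ (by linarith)
    have h3 : ∑ l, hgt k (A i l - lam * A j l) ≤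
        ∑ l, (hgt k (A i l) + (B' + hgt k (A j l))) := by
      refine Finset.sum_le_sum fun l _ => ?_
      rw [sub_eq_add_neg]
      refine (hgt_add_le _ _).trans ?_
      have h4 : hgt k (-(lam * A j l)) ≤ B' + hgt k (A j l) := by
        have h5 : hgt k (-(lam * A j l)) = hgt k (lam * A j l) :=
          hgt_congr fun P => P.ord_neg _
        rw [h5]
        by_cases h6 : A j l = 0
        · rw [h6, mul_zero, hgt_zero]
          linarith
        by_cases h7 : lam = 0
        · rw [h7, zero_mul, hgt_zero]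
          have := hgt_nonneg (k := k) (A j l)
          linarith
        have h8 := hgt_mul (k := k) h7 h6
        linarith
      linarith
    rw [Finset.sum_add_distrib, Finset.sum_add_distrib, Finset.sum_const, Finset.card_univ,
      Fintype.card_fin, nsmul_eq_mul] at h3
    have h4 := rows_le (k := k) A hij
    linarith

/-- **Growth.** -/
theorem far_step {N d : ℕ} (hd0 : 0 < d) (hd : 2 * (N - 1) ^ 2 ≤ d) {B B' : ℤ}
    (A : Matrix (Fin N) (Fin N) K) (hA : A.det ≠ 0) (hB'0 : 0 ≤ B')
    (hB : gc N * (max (canDeg k K) 0 + msum k A + N * B') < d * (B + 1)) {y : Fin N → K}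
    (hy : Far k B y) : Far k B' (step d A y) := by
  obtain ⟨h1, h2⟩ := step_ratio (k := k) hd0 hd A hB'0 hB (y := y)
  have h0 : ∀ i, step d A y i ≠ 0 := by
    intro i hi
    exact hA (Matrix.det_eq_zero_of_row_eq_zero i fun l => h1 i hi l (hy.farAt l))
  refine ⟨h0, fun i j hij => ?_⟩
  by_contra hcon
  push Not at hcon
  have h3 := h2 i j hij (h0 j) hcon
  apply hA
  refine Matrix.exists_vecMul_eq_zero_iff.1 ⟨Function.update (Pi.single i 1) j
    (-(step d A y i / step d A y j)), ?_, ?_⟩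
  · intro h4
    have h5 := congrFun h4 i
    rw [Function.update_of_ne hij, Pi.single_eq_same, Pi.zero_apply] at h5
    exact one_ne_zero h5
  · funext l
    rw [Matrix.vecMul, dotProduct, Pi.zero_apply, Finset.sum_eq_add i j hij]
    · rw [Function.update_of_ne hij, Pi.single_eq_same, Function.update_self,
        h3 l (hy.farAt l)]
      ring
    · intro q _ hq
      rw [Function.update_of_ne hq.2, Pi.single_eq_of_ne hq.1, zero_mul]
    · intro h
      exact absurd (Finset.mem_univ i) h
    · intro h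
      exact absurd (Finset.mem_univ j) h

/-- All minors of order two do not vanish. -/
def Minors {N : ℕ} (A : Matrix (Fin N) (Fin N) K) : Prop :=
  ∀ i j l m, i ≠ j → l ≠ m → A i l * A j m ≠ A i m * A j l

/-- **Growth, the first step.** -/
theorem far_step2 {N d : ℕ} (hd0 : 0 < d) (hd : 2 * (N - 1) ^ 2 ≤ d) {B B' : ℤ}
    (A : Matrix (Fin N) (Fin N) K) (hA : Minors A) (hB'0 : 0 ≤ B')
    (hB : gc N * (max (canDeg k K) 0 + msum k A + N * B') < d * (B + 1)) {y : Fin N → K}
    {l m : Fin N} (hlm : l ≠ m) (hl : FarAt k B y l) (hm : FarAt k B y m) :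
    Far k B' (step d A y) := by
  obtain ⟨h1, h2⟩ := step_ratio (k := k) hd0 hd A hB'0 hB (y := y)
  have h0 : ∀ i, step d A y i ≠ 0 := by
    intro i hi
    obtain ⟨j, hj⟩ : ∃ j : Fin N, i ≠ j := by
      by_contra hcon
      push Not at hcon
      exact hlm ((hcon l).symm.trans (hcon m))
    refine hA i j l m hj hlm ?_
    rw [h1 i hi l hl, h1 i hi m hm, zero_mul, zero_mul]
  refine ⟨h0, fun i j hij => ?_⟩
  by_contra hcon
  push Not at hcon
  refine hA i j l m hij hlm ?_
  rw [h2 i j hij (h0 j) hcon l hl, h2 i j hij (h0 j) hcon m hm]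
  ring

theorem four_cube {N d : ℕ} (hN : 0 < N) (hd : 4 * N ^ 3 ≤ d) :
    0 < d ∧ 2 * (N - 1) ^ 2 ≤ d ∧ 2 * (gc N * N) ≤ d := by
  have h1 : 0 < N ^ 3 := by positivity
  refine ⟨by omega, ?_, ?_⟩
  · have h2 : (N - 1) ^ 2 ≤ N ^ 2 := Nat.pow_le_pow_left (by omega) 2
    have h3 : N ^ 2 ≤ N ^ 3 := Nat.pow_le_pow_right hN (by norm_num)
    omega
  · have h2 : gc N = 2 * (N * ((N : ℤ) - 1)) + 1 := by
      unfold gc
      linarith [two_tri N]
    have h3 : (4 : ℤ) * N ^ 3 ≤ d := by exact_mod_cast hd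
    have h4 : (1 : ℤ) ≤ N := by exact_mod_cast hN
    rw [h2]
    nlinarith

/-- the bound after a step -/
theorem bound_step {N d : ℕ} (hN : 0 < N) (hd : 4 * N ^ 3 ≤ d) {W B B' : ℤ} {g a : ℤ}
    (hg : 0 ≤ g) (ha : 0 ≤ a) (hW : W = g + a) (hWB : W ≤ B) (hB' : B' ≤ 2 * B + 1 - W)
    (hB'0 : 0 ≤ B') : gc N * (g + a + N * B') < d * (B + 1) := by
  obtain ⟨-, -, h1⟩ := four_cube hN hd
  have h2 := gc_pos N
  have h3 : (1 : ℤ) ≤ N := by exact_mod_cast hN
  have h4 : g + a + N * B' ≤ N * (W + B') := by nlinarith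
  have h5 : gc N * (g + a + N * B') ≤ gc N * (N * (W + B')) :=
    mul_le_mul_of_nonneg_left h4 (by linarith)
  have h6 : (0 : ℤ) < gc N * N := by nlinarith
  have h7 : gc N * (N * (W + B')) < 2 * (gc N * N) * (B + 1) := by
    have h8 : W + B' < 2 * (B + 1) := by linarith
    nlinarith
  have h8 : 2 * (gc N * N) * (B + 1) ≤ d * (B + 1) :=
    mul_le_mul_of_nonneg_right h1 (by linarith)
  linarith

/-- **Orbits.** -/
theorem far_orbit {N d : ℕ} (hN : 0 < N) (hd : 4 * N ^ 3 ≤ d)
    (A : Matrix (Fin N) (Fin N) K) (hA : A.det ≠ 0) {B : ℤ}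
    (hB : max (canDeg k K) 0 + msum k A ≤ B) {y : Fin N → K} (hy : Far k B y) (m : ℕ) :
    Far k (B + m) ((step d A)^[m] y) := by
  obtain ⟨hd0, hd1, -⟩ := four_cube hN hd
  have hm := msum_nonneg (k := k) A
  have hc := le_max_right (canDeg k K) 0
  induction m with
  | zero => simpa using hy
  | succ m ih =>
    rw [Function.iterate_succ_apply']
    refine far_step (k := k) hd0 hd1 A hA (by push_cast; linarith) ?_ ih
    refine bound_step hN hd hc hm rfl (by linarith) ?_ (by push_cast; linarith)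
    push_cast
    linarith

end Pool.Agent.TH710.DY
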