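import Pool.Agent.TH710.DY.Orbit

/-!
Heights of the coefficients of polynomials that depend on few functions.
-/

set_option autoImplicit false

open FF MvPolynomial Pool.Agent.W603.LV Pool.Agent.W603.CY

namespace Pool.Agent.TH710.DY

variable (k : Type) {K ρ τ : Type} [Field k] [Field K] [Algebra k K]

/-- `z` is the value at `r` of a polynomial over `k` of total degree at most `D`. -/
def PD (r : ρ → K) (D : ℕ) (z : K) : Prop :=
  ∃ c : MvPolynomial ρ k, c.totalDegree ≤ D ∧ aeval r c = z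

/-- All coefficients of `P` are values at `r` of polynomials over `k` of total degree at most
`D`. -/
def PP (r : ρ → K) (D : ℕ) (P : MvPolynomial τ K) : Prop := ∀ κ, PD k r D (coeff κ P)

variable {k} {r : ρ → K} {D D' : ℕ}

theorem PD.mono {z : K} (h : PD k r D z) (hD : D ≤ D') : PD k r D' z := by
  obtain ⟨c, h1, h2⟩ := h
  exact ⟨c, h1.trans hD, h2⟩

theorem PD.const (c : k) : PD k r D (algebraMap k K c) :=
  ⟨C c, by rw [totalDegree_C]; exact Nat.zero_le _, by rw [aeval_C]⟩

theorem PD.zero : PD k r D 0 := ⟨0, by rw [totalDegree_zero]; exact Nat.zero_le _, map_zero _⟩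

theorem PD.one : PD k r D 1 := by
  have := PD.const (r := r) (D := D) (1 : k)
  rwa [map_one] at this

theorem PD.var (a : ρ) : PD k r 1 (r a) := ⟨X a, by rw [totalDegree_X], aeval_X _ _⟩

theorem PD.neg {z : K} (h : PD k r D z) : PD k r D (-z) := by
  obtain ⟨c, h1, h2⟩ := h
  exact ⟨-c, by rwa [totalDegree_neg], by rw [map_neg, h2]⟩

theorem PD.add {z w : K} (h : PD k r D z) (h' : PD k r D w) : PD k r D (z + w) := by
  obtain ⟨c, h1, h2⟩ := h
  obtain ⟨c', h1', h2'⟩ := h'
  exact ⟨c + c', (totalDegree_add _ _).trans (max_le h1 h1'), by rw [map_add, h2, h2']⟩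

theorem PD.mul {z w : K} (h : PD k r D z) (h' : PD k r D' w) : PD k r (D + D') (z * w) := by
  obtain ⟨c, h1, h2⟩ := h
  obtain ⟨c', h1', h2'⟩ := h'
  exact ⟨c * c', (totalDegree_mul _ _).trans (add_le_add h1 h1'), by rw [map_mul, h2, h2']⟩

theorem PD.sum {ι : Type} (s : Finset ι) (z : ι → K) (h : ∀ i ∈ s, PD k r D (z i)) :
    PD k r D (∑ i ∈ s, z i) := by
  classical
  induction s using Finset.induction_on with
  | empty => rw [Finset.sum_empty]; exact PD.zero
  | insert a s ha ih =>
    rw [Finset.sum_insert ha]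
    exact (h a (Finset.mem_insert_self a s)).add (ih fun i hi => h i (Finset.mem_insert_of_mem hi))

theorem PD.hgt [CharZero k] [IsFF k K] [IsAlgClosed k] [Fintype ρ] {z : K} (h : PD k r D z) :
    hgt k z ≤ D * ∑ a, hgt k (r a) := by
  obtain ⟨c, h1, h2⟩ := h
  rw [← h2]
  refine (hgt_mvpoly r c).trans ?_
  exact mul_le_mul_of_nonneg_right (by exact_mod_cast h1)
    (Finset.sum_nonneg fun _ _ => hgt_nonneg _)

theorem PP.mono {P : MvPolynomial τ K} (h : PP k r D P) (hD : D ≤ D') : PP k r D' P :=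
  fun κ => (h κ).mono hD

theorem PP.add {P Q : MvPolynomial τ K} (h : PP k r D P) (h' : PP k r D Q) :
    PP k r D (P + Q) := fun κ => by
  rw [coeff_add]
  exact (h κ).add (h' κ)

theorem PP.neg {P : MvPolynomial τ K} (h : PP k r D P) : PP k r D (-P) := fun κ => by
  rw [coeff_neg]
  exact (h κ).neg

theorem PP.mul {P Q : MvPolynomial τ K} (h : PP k r D P) (h' : PP k r D' Q) :
    PP k r (D + D') (P * Q) := fun κ => by
  classical
  rw [coeff_mul]
  exact PD.sum _ _ fun x _ => (h x.1).mul (h' x.2)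

theorem PP.C {z : K} (h : PD k r D z) : PP k r D (C z : MvPolynomial τ K) := fun κ => by
  classical
  rw [coeff_C]
  split_ifs
  · exact h
  · exact PD.zero

theorem PP.X (i : τ) : PP k r D (X i : MvPolynomial τ K) := fun κ => by
  classical
  rw [MvPolynomial.coeff_X]
  split_ifs
  · exact PD.one
  · exact PD.zero

theorem PP.monomial (κ : τ →₀ ℕ) {z : K} (h : PD k r D z) :
    PP k r D (monomial κ z : MvPolynomial τ K) := fun κ' => by
  classical
  rw [coeff_monomial]
  split_ifs
  · exact h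
  · exact PD.zero

theorem PP.one : PP k r D (1 : MvPolynomial τ K) := by
  have := PP.C (τ := τ) (PD.one (r := r) (D := D) (k := k))
  rwa [C_1] at this

theorem PP.sum {ι : Type} (s : Finset ι) (P : ι → MvPolynomial τ K)
    (h : ∀ i ∈ s, PP k r D (P i)) : PP k r D (∑ i ∈ s, P i) := fun κ => by
  rw [coeff_sum]
  exact PD.sum _ _ fun i hi => h i hi κ

theorem PP.pow {P : MvPolynomial τ K} (h : PP k r D P) (m : ℕ) : PP k r (m * D) (P ^ m) := by
  induction m with
  | zero => rw [pow_zero]; exact PP.one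
  | succ m ih =>
    rw [pow_succ]
    exact (ih.mul h).mono (by rw [Nat.succ_mul])

theorem PP.prod {ι : Type} (s : Finset ι) (P : ι → MvPolynomial τ K) (m : ι → ℕ)
    (h : ∀ i ∈ s, PP k r (m i) (P i)) : PP k r (∑ i ∈ s, m i) (∏ i ∈ s, P i) := by
  classical
  induction s using Finset.induction_on with
  | empty => rw [Finset.prod_empty]; exact PP.one
  | insert a s ha ih =>
    rw [Finset.prod_insert ha, Finset.sum_insert ha]
    exact (h a (Finset.mem_insert_self a s)).mul (ih fun i hi => h i (Finset.mem_insert_of_mem hi))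

/-- linear substitution -/
noncomputable def sub {N : ℕ} (A : Matrix (Fin N) (Fin N) K) :
    MvPolynomial (Fin N) K →ₐ[K] MvPolynomial (Fin N) K :=
  aeval fun i => ∑ j, MvPolynomial.C (A i j) * MvPolynomial.X j

theorem sub_X {N : ℕ} (A : Matrix (Fin N) (Fin N) K) (i : Fin N) :
    sub A (MvPolynomial.X i) = ∑ j, MvPolynomial.C (A i j) * MvPolynomial.X j := by
  unfold sub
  rw [aeval_X]

theorem sub_sub {N : ℕ} (A B : Matrix (Fin N) (Fin N) K) (F : MvPolynomial (Fin N) K) :
    sub B (sub A F) = sub (A * B) F := by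
  have h : (sub B).comp (sub A) = sub (A * B) := by
    apply algHom_ext
    intro i
    rw [AlgHom.comp_apply, sub_X, sub_X, map_sum]
    simp only [map_mul, sub_X]
    have h1 : ∀ j, (sub B) (MvPolynomial.C (A i j)) = MvPolynomial.C (A i j) := fun j =>
      (sub B).commutes _
    simp only [h1, Matrix.mul_apply, map_sum, Finset.mul_sum, Finset.sum_mul]
    rw [Finset.sum_comm]
    exact Finset.sum_congr rfl fun j _ => Finset.sum_congr rfl fun l _ => by
      rw [map_mul, mul_assoc]
  rw [← h]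
  rfl

theorem sub_one {N : ℕ} (F : MvPolynomial (Fin N) K) : sub 1 F = F := by
  have h : sub (1 : Matrix (Fin N) (Fin N) K) = AlgHom.id K _ := by
    apply algHom_ext
    intro i
    rw [sub_X, AlgHom.id_apply, Finset.sum_eq_single i]
    · rw [Matrix.one_apply_eq, map_one, one_mul]
    · intro j _ hj
      rw [Matrix.one_apply_ne hj.symm, map_zero, zero_mul]
    · intro h
      exact absurd (Finset.mem_univ i) h
  rw [h]
  rfl

theorem sub_inj {N : ℕ} {A : Matrix (Fin N) (Fin N) K} (hA : A.det ≠ 0)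
    {F : MvPolynomial (Fin N) K} (h : sub A F = 0) : F = 0 := by
  have h1 := sub_sub A A⁻¹ F
  rw [h, map_zero, Matrix.mul_nonsing_inv A (Ne.isUnit hA), sub_one] at h1
  exact h1.symm

theorem sub_eq {N : ℕ} (A : Matrix (Fin N) (Fin N) K) (F : MvPolynomial (Fin N) K) :
    sub A F = ∑ κ ∈ F.support, MvPolynomial.C (coeff κ F) *
      ∏ i, (∑ j, MvPolynomial.C (A i j) * MvPolynomial.X j) ^ κ i := by
  unfold sub
  rw [aeval_def, eval₂_eq']
  rfl

theorem sub_hom {N δ : ℕ} (A : Matrix (Fin N) (Fin N) K) {F : MvPolynomial (Fin N) K}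
    (hF : F.IsHomogeneous δ) : (sub A F).IsHomogeneous δ := by
  rw [sub_eq]
  refine IsHomogeneous.sum _ _ _ fun κ hκ => ?_
  have h1 : κ.degree = δ := by
    by_contra h
    exact mem_support_iff.1 hκ (hF.coeff_eq_zero h)
  have h2 : (∏ i, (∑ j, MvPolynomial.C (A i j) * MvPolynomial.X j :
      MvPolynomial (Fin N) K) ^ κ i).IsHomogeneous (∑ i, 1 * κ i) :=
    IsHomogeneous.prod _ _ _ fun i _ => (IsHomogeneous.sum _ _ 1 fun j _ => by
      have h := (isHomogeneous_C (Fin N) (A i j)).mul (isHomogeneous_X K j)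
      rwa [zero_add] at h).pow _
  have h3 : ∑ i, 1 * κ i = δ := by
    rw [← h1, Finsupp.degree_eq_sum]
    exact Finset.sum_congr rfl fun i _ => one_mul _
  rw [h3] at h2
  have h4 := (isHomogeneous_C (Fin N) (coeff κ F)).mul h2
  rwa [zero_add] at h4

theorem sub_PP {N δ : ℕ} {A : Matrix (Fin N) (Fin N) K} {F : MvPolynomial (Fin N) K}
    (hF : F.IsHomogeneous δ) (hr : PP k r 1 F) (hA : ∀ i j, PD k r 1 (A i j)) :
    PP k r (δ + 1) (sub A F) := by
  rw [sub_eq]
  refine PP.sum _ _ fun κ hκ => ?_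
  have h1 : κ.degree = δ := by
    by_contra h
    exact mem_support_iff.1 hκ (hF.coeff_eq_zero h)
  have h2 : PP k r (∑ i, κ i * 1) (∏ i, (∑ j, MvPolynomial.C (A i j) * MvPolynomial.X j :
      MvPolynomial (Fin N) K) ^ κ i) :=
    PP.prod _ _ _ fun i _ => (PP.sum _ _ fun j _ =>
      ((PP.C (hA i j)).mul (PP.X (D := 0) j))).pow _
  have h3 : ∑ i, κ i * 1 = δ := by
    rw [← h1, Finsupp.degree_eq_sum]
    exact Finset.sum_congr rfl fun i _ => mul_one _
  rw [h3] at h2
  exact ((PP.C (hr κ)).mul h2).mono (by omega)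

end Pool.Agent.TH710.DY
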