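import Pool.Agent.TH710.DY.Ap

/-!
Skew products of linear images of power maps with a polynomial map.
-/

set_option autoImplicit false

open FF MvPolynomial Pool.Agent.W603.LV Pool.Agent.W603.CY

namespace Pool.Agent.TH710.DY

section defs

variable {K : Type} [Field K] {N r : ℕ}

/-- The skew product `(x, y) ↦ (A(y) (x_0 ^ d, ..., x_n ^ d), g(y))` over the complex numbers. -/
noncomputable def skew (σ : K →+* ℂ) (d : ℕ) (A : Matrix (Fin N) (Fin N) (MvPolynomial (Fin r) K))
    (g : Fin r → MvPolynomial (Fin r) K) (z : (Fin N → ℂ) × (Fin r → ℂ)) :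
    (Fin N → ℂ) × (Fin r → ℂ) :=
  (fun i => ∑ j, eval z.2 (map σ (A i j)) * z.1 j ^ d, fun i => eval z.2 (map σ (g i)))

/-- the map of the base, over the complex numbers -/
noncomputable def bmap (σ : K →+* ℂ) (g : Fin r → MvPolynomial (Fin r) K) (z : Fin r → ℂ) :
    Fin r → ℂ := fun i => eval z (map σ (g i))

/-- The return set of the point `(x, y)` under the skew product, for the closed subset of
`P^n × A^r` given by the polynomials in `V` (whose coefficients are polynomials on `A^r`). -/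
noncomputable def Ret (σ : K →+* ℂ) (d : ℕ) (A : Matrix (Fin N) (Fin N) (MvPolynomial (Fin r) K))
    (g : Fin r → MvPolynomial (Fin r) K) (x : Fin N → K) (y : Fin r → K)
    (V : Set (MvPolynomial (Fin N) (MvPolynomial (Fin r) ℂ))) : Set ℕ :=
  {m | ∀ F ∈ V, eval ((skew σ d A g)^[m] (fun i => σ (x i), fun i => σ (y i))).1
    (map (eval ((skew σ d A g)^[m] (fun i => σ (x i), fun i => σ (y i))).2) F) = 0}

/-- The return set of the point `y` under the map of the base, for the closed subset of `A^r` given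
by the polynomials in `W`. -/
noncomputable def BRet (σ : K →+* ℂ) (g : Fin r → MvPolynomial (Fin r) K) (y : Fin r → K)
    (W : Set (MvPolynomial (Fin r) ℂ)) : Set ℕ :=
  {m | ∀ p ∈ W, eval ((bmap σ g)^[m] fun i => σ (y i)) p = 0}

/-- the coefficients of the polynomials in `V`: they define `{y : P^n × {y} ⊆ V}` -/
def coefs (V : Set (MvPolynomial (Fin N) (MvPolynomial (Fin r) ℂ))) :
    Set (MvPolynomial (Fin r) ℂ) := {p | ∃ F ∈ V, ∃ κ, p = coeff κ F}

theorem eval_sigma' (σ : K →+* ℂ) (y : Fin r → K) (p : MvPolynomial (Fin r) K) :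
    eval (fun i => σ (y i)) (map σ p) = σ (aeval y p) := eval_sigma σ y p

/-- the orbit over `K` -/
noncomputable def xorb (d : ℕ) (A : Matrix (Fin N) (Fin N) (MvPolynomial (Fin r) K))
    (g : Fin r → MvPolynomial (Fin r) K) (x : Fin N → K) (y : Fin r → K) : ℕ → Fin N → K
  | 0 => x
  | m + 1 => step d (evm A (borb g y m)) (xorb d A g x y m)

theorem skew_iter (σ : K →+* ℂ) (d : ℕ) (A : Matrix (Fin N) (Fin N) (MvPolynomial (Fin r) K))
    (g : Fin r → MvPolynomial (Fin r) K) (x : Fin N → K) (y : Fin r → K) (m : ℕ) :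
    (skew σ d A g)^[m] (fun i => σ (x i), fun i => σ (y i)) =
      (fun i => σ (xorb d A g x y m i), fun i => σ (borb g y m i)) := by
  induction m with
  | zero => rfl
  | succ m ih =>
    rw [Function.iterate_succ_apply', ih]
    have h1 : borb g y (m + 1) = fun i => aeval (borb g y m) (g i) := by
      unfold borb
      rw [Function.iterate_succ_apply']
    refine Prod.ext ?_ ?_
    · funext i
      change ∑ j, eval (fun i => σ (borb g y m i)) (map σ (A i j)) *
        σ (xorb d A g x y m j) ^ d = σ (∑ j, evm A (borb g y m) i j * xorb d A g x y m j ^ d)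
      rw [map_sum]
      refine Finset.sum_congr rfl fun j _ => ?_
      rw [eval_sigma', map_mul, map_pow]
      rfl
    · funext i
      change eval (fun i => σ (borb g y m i)) (map σ (g i)) = _
      rw [eval_sigma', h1]

theorem bmap_iter (σ : K →+* ℂ) (g : Fin r → MvPolynomial (Fin r) K) (y : Fin r → K) (m : ℕ) :
    (bmap σ g)^[m] (fun i => σ (y i)) = fun i => σ (borb g y m i) := by
  induction m with
  | zero => rfl
  | succ m ih =>
    rw [Function.iterate_succ_apply', ih]
    have h1 : borb g y (m + 1) = fun i => aeval (borb g y m) (g i) := by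
      unfold borb
      rw [Function.iterate_succ_apply']
    funext i
    change eval (fun i => σ (borb g y m i)) (map σ (g i)) = _
    rw [eval_sigma', h1]

end defs

variable {k K : Type} [Field k] [Field K] [Algebra k K] {r n : ℕ}
  [CharZero k] [IsFF k K] [IsAlgClosed k]

theorem mons_pos (n δ : ℕ) : 0 < (mons (n + 1) δ).card := by
  rw [Finset.card_pos]
  refine ⟨Finsupp.single 0 δ, ?_⟩
  rw [mem_mons, Finsupp.degree_single]

/-- the conclusion -/
theorem skew_main {δ e : ℕ} (hδ : 0 < δ) (he : 0 < e) {d : ℕ}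
    (hd : (e + 1) * qc (mons (n + 1) δ).card δ ≤ d) (σ : K →+* ℂ)
    (A : Matrix (Fin (n + 1)) (Fin (n + 1)) (MvPolynomial (Fin r) K))
    (g : Fin r → MvPolynomial (Fin r) K) (y : Fin r → K)
    (hA : ∀ m, (evm A (borb g y m)).det ≠ 0) {a : ℤ} (ha0 : 0 ≤ a)
    (ha : ∀ m, msum k (evm A (borb g y m)) ≤ a * e ^ m) {b : ℤ} (hb0 : 0 ≤ b)
    (hb : ∀ m, mapDeg k (borb g y m) ≤ b * e ^ m) (x : Fin (n + 1) → K)
    (hx : FarM k δ (max (canDeg k K) 0 + a) x)
    (V : Set (MvPolynomial (Fin (n + 1)) (MvPolynomial (Fin r) ℂ)))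
    (hV : ∀ F ∈ V, ∃ δ' ≤ δ, F.IsHomogeneous δ') :
    (∃ m0 : ℕ, ∀ m, m0 ≤ m → (m ∈ Ret σ d A g x y V ↔ m ∈ BRet σ g y (coefs V))) ∧
    (IsAP (BRet σ g y (coefs V)) → IsAP (Ret σ d A g x y V)) := by
  have h1 : ∃ m0 : ℕ, ∀ m, m0 ≤ m → (m ∈ Ret σ d A g x y V ↔ m ∈ BRet σ g y (coefs V)) := by
    obtain ⟨m0, hm0⟩ := return_base (k := k) (Nat.succ_pos n) (mons_pos n δ) le_rfl he hd
      (fun m => evm A (borb g y m)) hA ha0 ha (xorb d A g x y) (fun m => rfl)
      (farM_orbit (k := k) hδ (mons_pos n δ) le_rfl he hd (fun m => evm A (borb g y m)) hA ha0 ha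
        (xorb d A g x y) (fun m => rfl) hx) (borb g y) hb0 hb σ V hV
    refine ⟨m0, fun m hm => ?_⟩
    have h2 := hm0 m hm
    unfold Ret BRet coefs
    simp only [Set.mem_ofPred_eq, skew_iter, bmap_iter]
    rw [h2]
    constructor
    · rintro h p ⟨F, hF, κ, rfl⟩
      exact h F hF κ
    · intro h F hF κ
      exact h _ ⟨F, hF, κ, rfl⟩
  refine ⟨h1, fun h => ?_⟩
  obtain ⟨m0, hm0⟩ := h1
  exact h.late m0 fun m hm => (hm0 m hm).symm

end Pool.Agent.TH710.DY
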