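import Pool.Agent.TH710.DY.Orbit
import Pool.Agent.TH710.NU.Seq

/-!
Nested sums of few high powers of linear forms do not vanish at points whose coordinates are far
from being proportional.
-/

set_option autoImplicit false

open FF Filter MvPolynomial Pool.Agent.W603.LV Pool.Agent.W603.CZ Pool.Agent.TH710.ND
  Pool.Agent.TH710.NU

namespace Pool.Agent.TH710.DY

theorem map_eq_aeval {R S σ : Type} [CommRing R] [CommRing S] [Algebra R S]
    (F : MvPolynomial σ R) :
    map (algebraMap R S) F = aeval (fun t => (X t : MvPolynomial σ S)) F := by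
  induction F using MvPolynomial.induction_on with
  | C a => rw [map_C, aeval_C]; rfl
  | add p q hp hq => rw [map_add, map_add, hp, hq]
  | mul_X p i hp => rw [map_mul, map_mul, hp, map_X, aeval_X]

variable {k K : Type} [Field k] [Field K] [Algebra k K]

theorem lin_pull {N d : ℕ} (A : Matrix (Fin N) (Fin N) K) (y p : Fin N → K) :
    ∑ i, p i * step d A y i = ∑ j, Matrix.vecMul p A j * y j ^ d := by
  unfold step Matrix.vecMul dotProduct
  simp only [Finset.mul_sum, Finset.sum_mul]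
  rw [Finset.sum_comm]
  exact Finset.sum_congr rfl fun j _ => Finset.sum_congr rfl fun i _ => by ring

theorem vec_zero {N : ℕ} {A : Matrix (Fin N) (Fin N) K} (hA : A.det ≠ 0) {p : Fin N → K}
    (h : ∀ j, Matrix.vecMul p A j = 0) : p = 0 :=
  Matrix.eq_zero_of_vecMul_eq_zero hA (funext h)

variable [CharZero k] [IsFF k K] [IsAlgClosed k]

/-- a linear form that vanishes at a point of an orbit -/
theorem leaf_zero {N d : ℕ} (hN : 0 < N) (hd : 4 * N ^ 3 ≤ d)
    {A : Matrix (Fin N) (Fin N) K} (hA : A.det ≠ 0) (p : Fin N → K) :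
    ∃ B0 : ℕ, ∀ (B : ℤ) (y : Fin N → K), B0 ≤ B → Far k B y → ∑ i, p i * step d A y i = 0 →
      p = 0 := by
  obtain ⟨hd0, hd1, -⟩ := four_cube hN hd
  refine ⟨(gc N * (max (canDeg k K) 0 + ∑ j, hgt k (Matrix.vecMul p A j))).toNat, ?_⟩
  intro B y hB hy h0
  rw [lin_pull] at h0
  refine vec_zero hA fun j => lin_zero hd0 hd1 (hy.farAt j) _ h0 ?_
  have h1 := Int.self_le_toNat (gc N * (max (canDeg k K) 0 + ∑ j, hgt k (Matrix.vecMul p A j)))
  have h2 : (1 : ℤ) ≤ d := by exact_mod_cast hd0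
  nlinarith

/-- two linear forms of small ratio at a point of an orbit -/
theorem leaf_prop {N d : ℕ} (hN : 0 < N) (hd : 4 * N ^ 3 ≤ d)
    {A : Matrix (Fin N) (Fin N) K} (hA : A.det ≠ 0) (p q : Fin N → K) (b : ℕ) :
    ∃ B0 : ℕ, ∀ (B : ℤ) (y : Fin N → K), B0 ≤ B → Far k B y →
      ∑ i, q i * step d A y i ≠ 0 →
      hgt k ((∑ i, p i * step d A y i) / ∑ i, q i * step d A y i) ≤ b →
      ∃ c : K, ∀ i, p i = c * q i := by
  obtain ⟨hd0, hd1, -⟩ := four_cube hN hd
  refine ⟨(gc N * (max (canDeg k K) 0 + ∑ j, (hgt k (Matrix.vecMul p A j) +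
    (b + hgt k (Matrix.vecMul q A j))))).toNat, ?_⟩
  intro B y hB hy hq hr
  set lam := (∑ i, p i * step d A y i) / ∑ i, q i * step d A y i with hlam
  have h0 : ∑ i, (p i - lam * q i) * step d A y i = 0 := by
    have h1 : ∑ i, p i * step d A y i - lam * ∑ i, q i * step d A y i = 0 := by
      rw [hlam, div_mul_cancel₀ _ hq, sub_self]
    rw [← h1, Finset.mul_sum, ← Finset.sum_sub_distrib]
    exact Finset.sum_congr rfl fun l _ => by ring
  rw [lin_pull] at h0
  have hv : ∀ j, Matrix.vecMul (fun i => p i - lam * q i) A j =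
      Matrix.vecMul p A j + -(lam * Matrix.vecMul q A j) := by
    intro j
    unfold Matrix.vecMul dotProduct
    rw [Finset.mul_sum, ← Finset.sum_neg_distrib, ← Finset.sum_add_distrib]
    exact Finset.sum_congr rfl fun i _ => by ring
  have h1 : (fun i => p i - lam * q i) = 0 := by
    refine vec_zero hA fun j => lin_zero hd0 hd1 (hy.farAt j) _ h0 ?_
    have h1 := Int.self_le_toNat (gc N * (max (canDeg k K) 0 +
      ∑ j, (hgt k (Matrix.vecMul p A j) + (b + hgt k (Matrix.vecMul q A j)))))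
    have h2 : (1 : ℤ) ≤ d := by exact_mod_cast hd0
    have h3 : ∑ j, hgt k (Matrix.vecMul (fun i => p i - lam * q i) A j) ≤
        ∑ j, (hgt k (Matrix.vecMul p A j) + (b + hgt k (Matrix.vecMul q A j))) := by
      refine Finset.sum_le_sum fun j _ => ?_
      rw [hv]
      refine (Pool.Agent.W603.CY.hgt_add_le _ _).trans ?_
      have h5 : hgt k (-(lam * Matrix.vecMul q A j)) = hgt k (lam * Matrix.vecMul q A j) :=
        hgt_congr fun P => P.ord_neg _
      rw [h5]
      have h6 := Pool.Agent.W603.CY.hgt_mul_le (k := k) lam (Matrix.vecMul q A j)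
      linarith
    have h4 := mul_le_mul_of_nonneg_left (add_le_add_right h3 (max (canDeg k K) 0))
      (by linarith [gc_pos N] : (0 : ℤ) ≤ gc N)
    nlinarith
  exact ⟨lam, fun i => sub_eq_zero.1 (congrFun h1 i)⟩

/-- **Nested sums of few high powers of linear forms do not vanish.** -/
theorem tower_zero {n d : ℕ} (hd : 4 * (n + 1) ^ 3 ≤ d)
    {A : Matrix (Fin (n + 1)) (Fin (n + 1)) K} (hA : A.det ≠ 0) (y : ℕ → Fin (n + 1) → K)
    (hy : ∀ i : ℕ, Far k (i : ℤ) (y i)) {F : MvPolynomial (Fin (n + 1)) K} (hF : Tower F)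
    (h0 : ∀ i, aeval (step d A (y i)) F = 0) : F = 0 := by
  classical
  have hFc : ∀ c : K, ∃ B : ℕ, ∀ i : ℕ, hgt k (algebraMap K K c) ≤ B * (fun _ : ℕ => (1 : ℤ)) i := by
    intro c
    refine ⟨(hgt k c).toNat, fun i => ?_⟩
    have := Int.self_le_toNat (hgt k c)
    simpa using this
  obtain ⟨E, hE⟩ : ∃ E : IntermediateField K (UL (hyperfilter ℕ) (fun _ : ℕ => K)),
      IsSmall (hyperfilter ℕ) k (fun _ : ℕ => (1 : ℤ)) E :=
    ⟨small (hyperfilter ℕ) (fun _ : ℕ => (1 : ℤ)) (fun _ => zero_le_one) hFc,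
      fun _ => zero_le_one, fun a => mem_small (hyperfilter ℕ)⟩
  have hS : ∀ᶠ i in (hyperfilter ℕ : Filter ℕ),
      max (canDeg k K + ((fun _ : ℕ => (∅ : Finset (Place k K))) i).card) 0 ≤
        ((max (canDeg k K) 0).toNat : ℕ) * (fun _ : ℕ => (1 : ℤ)) i := by
    refine Eventually.of_forall fun i => ?_
    have := Int.self_le_toNat (max (canDeg k K) 0)
    simpa using this
  have hdsys := dsys (L := fun _ : ℕ => K) (F := K) (fun _ : ℕ => (∅ : Finset (Place k K))) hE hS
  set yU : Fin (n + 1) → UL (hyperfilter ℕ) (fun _ : ℕ => K) :=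
    fun t => um (hyperfilter ℕ) (fun i => step d A (y i) t) with hyU
  have hlin : ∀ a : Fin (n + 1) → K, aeval yU (∑ j, C (a j) * X j : MvPolynomial (Fin (n + 1)) K) =
      um (hyperfilter ℕ) (fun i => ∑ t, a t * step d A (y i) t) := by
    intro a
    have h1 := um_aeval (𝒰 := hyperfilter ℕ) (L := fun _ : ℕ => K) (fun t i => step d A (y i) t)
      (∑ j, C (a j) * X j : MvPolynomial (Fin (n + 1)) K)
    rw [← h1]
    congr 1
    funext i
    simp [map_sum]
  have hlarge : ∀ B : ℕ, ∀ᶠ i in (hyperfilter ℕ : Filter ℕ), B ≤ i := fun B =>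
    Nat.hyperfilter_le_atTop (eventually_ge_atTop _)
  let M := MvPolynomial (Fin (n + 1)) (UL (hyperfilter ℕ) (fun _ : ℕ => K))
  have henv : Env E IsLin yU (fun t => (X t : M)) := by
    constructor
    · rintro _ ⟨a, rfl⟩ h1
      rw [hlin, um_zero_iff] at h1
      obtain ⟨B0, hB0⟩ := leaf_zero (k := k) (Nat.succ_pos n) hd hA a
      obtain ⟨i, hi1, hi2⟩ := (h1.and (hlarge B0)).exists
      have h2 := hB0 i (y i) (by exact_mod_cast hi2) (hy i) hi1
      rw [h2]
      simp
    · rintro _ _ ⟨a, rfl⟩ ⟨b, rfl⟩ h1 h2 h3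
      rw [hlin] at h1 h2 h3
      rw [hlin, ← um_div, hE.2] at h3
      obtain ⟨c, hc⟩ := h3
      obtain ⟨B0, hB0⟩ := leaf_prop (k := k) (Nat.succ_pos n) hd hA a b c
      obtain ⟨i, ⟨hi1, hi2⟩, hi3⟩ := (((um_ne_iff.1 h2).and hc).and (hlarge B0)).exists
      obtain ⟨lam, hlam⟩ := hB0 i (y i) (by exact_mod_cast hi3) (hy i) hi1 (by simpa using hi2)
      have h4 : (∑ j, C (a j) * X j : MvPolynomial (Fin (n + 1)) K) =
          C lam * ∑ j, C (b j) * X j := by
        rw [Finset.mul_sum]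
        exact Finset.sum_congr rfl fun j _ => by rw [hlam j, C_mul, mul_assoc]
      rw [h4]
      simp only [map_mul, aeval_C]
      rw [← IsScalarTower.algebraMap_apply]
      ring
  obtain ⟨s, e, L, c, g, he0, hse, hL, hg, hFe⟩ := hF
  obtain ⟨ihz, ihp⟩ := gate_rel hdsys henv L hL
  have hval : aeval yU F = 0 := by
    rw [hyU, ← um_aeval (𝒰 := hyperfilter ℕ) (L := fun _ : ℕ => K)
      (fun t i => step d A (y i) t) F, um_zero_iff]
    exact Eventually.of_forall fun i => h0 i
  have h1 := pow_step hdsys (x := fun t => (X t : M)) he0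
    (fun i => algebraMap K (UL (hyperfilter ℕ) (fun _ : ℕ => K)) (c i))
    (fun i => E.algebraMap_mem _) g (by
      rw [hFe, aeval_sum_pow] at hval
      exact hval) (by rw [Fintype.card_fin]; exact hse) (fun j hj => ihz (g j) (hg j) hj)
    (fun i j hi hj hl => ihp (g i) (g j) (hg i) (hg j) hi hj hl)
  simp only [← IsScalarTower.algebraMap_apply] at h1
  have h2 : aeval (fun t => (X t : M)) F = 0 := by
    rw [hFe, aeval_sum_pow]
    exact h1
  have h3 : map (algebraMap K (UL (hyperfilter ℕ) (fun _ : ℕ => K))) F = 0 := by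
    rw [map_eq_aeval]
    exact h2
  exact (map_injective _ (algebraMap K _).injective) (by rw [h3, map_zero])

end Pool.Agent.TH710.DY
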